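import Pool.Agent.U322.NL.Bor

/-! Almost sure bounds. -/

set_option autoImplicit false

open Finset MeasureTheory ProbabilityTheory
open Classical

namespace Pool.Agent.U322.NL

variable {k l : ℕ}

/-- the sum of `1 / p` over the primes of `S` between `log_2 x` and `x` -/
noncomputable def D (S : Set ℕ) (x : ℕ) : ℝ :=
  ∑ p ∈ (Ioc (Nat.log 2 x) x).filter (fun p => p.Prime ∧ p ∈ S), (1 : ℝ) / p

theorem union_le (f : ℕ → ℝ) (hf : ∀ n, 0 ≤ f n) (s t : Finset ℕ) :
    ∑ n ∈ s ∪ t, f n ≤ ∑ n ∈ s, f n + ∑ n ∈ t, f n := by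
  rw [← sum_union_inter]
  have : 0 ≤ ∑ n ∈ s ∩ t, f n := sum_nonneg fun n _ => hf n
  linarith

theorem D_le (M A : ℕ) (hA : 1 ≤ A) : ∃ C : ℝ, 0 ≤ C ∧ ∀ (S : Set ℕ) (r : ℕ), 8 ≤ r → ∀ x : ℕ,
    2 ^ r ≤ x → x < 2 ^ (r + 1) → D S x ≤ ∑ p ∈ Tset M A S r, (1 : ℝ) / p + C := by
  obtain ⟨C, hC0, hM⟩ := Y819.MW.mert
  have hA0 : (0 : ℝ) ≤ Real.log A := Real.log_nonneg (by exact_mod_cast hA)
  have h32 : (0 : ℝ) ≤ Real.log 32 := Real.log_nonneg (by norm_num)
  refine ⟨(M + 1) + (Real.log A + C) + (Real.log 32 + C), by positivity, ?_⟩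
  intro S r hr x hx1 hx2
  have hlog : Nat.log 2 x = r := Nat.log_eq_of_pow_le_of_lt_pow hx1 hx2
  unfold D
  rw [hlog]
  set f : ℕ → ℝ := fun p => (1 : ℝ) / p with hf
  have hf0 : ∀ n, 0 ≤ f n := fun n => by rw [hf]; positivity
  have hsub : (Ioc r x).filter (fun p => p.Prime ∧ p ∈ S) ⊆
      ((Tset M A S r ∪ range (M + 1)) ∪ (Ioc r (r ^ A)).filter Nat.Prime) ∪
        (Ioc (2 ^ (r / 8)) (2 ^ (r + 1))).filter Nat.Prime := by
    intro p hp
    rw [mem_filter, mem_Ioc] at hp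
    obtain ⟨⟨h1, h2⟩, h3, h4⟩ := hp
    rw [mem_union, mem_union, mem_union, mem_Tset, mem_range, mem_filter, mem_Ioc, mem_filter,
      mem_Ioc]
    by_cases h5 : p ≤ M
    · left; left; right; omega
    by_cases h6 : p ≤ r ^ A
    · left; right; exact ⟨⟨h1, h6⟩, h3⟩
    by_cases h7 : p ≤ 2 ^ (r / 8)
    · left; left; left; exact ⟨h7, h3, h4, by omega, by omega⟩
    · right; exact ⟨⟨by omega, by omega⟩, h3⟩
  have h1 := sum_le_sum_of_subset_of_nonneg (f := f) hsub (fun n _ _ => hf0 n)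
  have h2 := union_le f hf0 ((Tset M A S r ∪ range (M + 1)) ∪ (Ioc r (r ^ A)).filter Nat.Prime)
    ((Ioc (2 ^ (r / 8)) (2 ^ (r + 1))).filter Nat.Prime)
  have h3 := union_le f hf0 (Tset M A S r ∪ range (M + 1)) ((Ioc r (r ^ A)).filter Nat.Prime)
  have h4 := union_le f hf0 (Tset M A S r) (range (M + 1))
  have h5 : ∑ n ∈ range (M + 1), f n ≤ M + 1 := by
    calc ∑ n ∈ range (M + 1), f n ≤ ∑ _n ∈ range (M + 1), (1 : ℝ) := by
          apply sum_le_sum
          intro n _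
          rw [hf]
          rcases Nat.eq_zero_or_pos n with h | h
          · rw [h]; norm_num
          · have : (1 : ℝ) ≤ n := by exact_mod_cast h
            rw [div_le_one (by linarith)]
            exact this
      _ = M + 1 := by rw [sum_const, card_range, nsmul_eq_mul, mul_one]; push_cast; rfl
  have hr2 : (8 : ℝ) ≤ r := by exact_mod_cast hr
  have hlr : 0 < Real.log r := Real.log_pos (by linarith)
  have h6 : ∑ n ∈ (Ioc r (r ^ A)).filter Nat.Prime, f n ≤ Real.log A + C := by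
    have h := hM r (r ^ A) (by omega) (Nat.le_self_pow (by omega) r)
    have e : Real.log ((r ^ A : ℕ) : ℝ) / Real.log r = A := by
      push_cast
      rw [Real.log_pow]
      field_simp
    rw [e] at h
    exact h
  have hl2 : 0 < Real.log 2 := Real.log_pos (by norm_num)
  have h7 : ∑ n ∈ (Ioc (2 ^ (r / 8)) (2 ^ (r + 1))).filter Nat.Prime, f n ≤ Real.log 32 + C := by
    have hle : 2 ^ (r / 8) ≤ 2 ^ (r + 1) := Nat.pow_le_pow_right (by norm_num) (by omega)
    have h2le : 2 ≤ 2 ^ (r / 8) := by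
      calc 2 = 2 ^ 1 := rfl
        _ ≤ 2 ^ (r / 8) := Nat.pow_le_pow_right (by norm_num) (by omega)
    have h := hM _ _ h2le hle
    have hr8 : (1 : ℝ) ≤ ((r / 8 : ℕ) : ℝ) := by
      have : 1 ≤ r / 8 := by omega
      exact_mod_cast this
    have e : Real.log ((2 ^ (r + 1) : ℕ) : ℝ) / Real.log ((2 ^ (r / 8) : ℕ) : ℝ) ≤ 32 := by
      push_cast
      rw [Real.log_pow, Real.log_pow, div_le_iff₀ (by positivity)]
      have h8 : r + 1 ≤ 32 * (r / 8) := by omega
      have h9 : ((r + 1 : ℕ) : ℝ) ≤ 32 * ((r / 8 : ℕ) : ℝ) := by exact_mod_cast h8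
      nlinarith
    have e0 : 0 < Real.log ((2 ^ (r + 1) : ℕ) : ℝ) / Real.log ((2 ^ (r / 8) : ℕ) : ℝ) := by
      push_cast
      rw [Real.log_pow, Real.log_pow]
      positivity
    have h10 := Real.log_le_log e0 e
    linarith
  linarith

section
variable {Ω : Type} [MeasurableSpace Ω] {μ : Measure Ω} [IsProbabilityMeasure μ]
  {X : ℕ → Ω → ℝ}

/-- the step of the net -/
def st (l r : ℕ) : ℕ := 2 ^ r / r ^ l + 1

/-- the points of the net -/
def pt (l r t : ℕ) : ℕ := 2 ^ r + t * st l r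

/-- the exceptional event at the level `r` -/
def BB (a b : Fin k → ℕ) (c d : Fin l → ℕ) (S : Set ℕ) (X : ℕ → Ω → ℝ) (r : ℕ) : Set Ω :=
  ⋃ t ∈ range (r ^ l + 1), {ω | 8 ≤ r ∧ pt l r t ≤ 2 ^ (r + 1) ∧ (pt l r t : ℝ) / r ^ l ≤
    |Y1 a b c d S X (Tset (M0 a b c d) (3 * l + 2) S r) (pt l r t) ω|}

theorem BB_le (hX : Signs μ X) {a b : Fin k → ℕ} {c d : Fin l → ℕ} (hG : Good a b c d)
    (S : Set ℕ) : ∃ C : ℝ, 0 < C ∧ ∀ r : ℕ, μ (BB a b c d S X r) ≤ ENNReal.ofReal (C / r ^ 2) := by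
  obtain ⟨C, hC, hY⟩ := Y1_second hX hG S
  refine ⟨2 * C, by positivity, ?_⟩
  intro r
  by_cases hr : 8 ≤ r
  · have hr0 : (0 : ℝ) < r := by
      have : 0 < r := by omega
      exact_mod_cast this
    have hr1 : (1 : ℝ) ≤ r := by
      have : 1 ≤ r := by omega
      exact_mod_cast this
    refine (measure_biUnion_finset_le _ _).trans ?_
    have h1 : ∀ t ∈ range (r ^ l + 1), μ {ω | 8 ≤ r ∧ pt l r t ≤ 2 ^ (r + 1) ∧
        (pt l r t : ℝ) / r ^ l ≤
          |Y1 a b c d S X (Tset (M0 a b c d) (3 * l + 2) S r) (pt l r t) ω|} ≤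
        ENNReal.ofReal (C * r ^ (2 * l) / r ^ (3 * l + 2)) := by
      intro t _
      by_cases hpt : pt l r t ≤ 2 ^ (r + 1)
      · have hpt1 : 2 ^ r ≤ pt l r t := by unfold pt; omega
        have hpt0 : (0 : ℝ) < pt l r t := by
          have : 0 < 2 ^ r := by positivity
          exact_mod_cast (by omega : 0 < pt l r t)
        have h2 := (hY r hr (pt l r t) hpt1 hpt (r ^ (3 * l + 2)) (Nat.one_le_pow _ _ (by omega))
          (Tset (M0 a b c d) (3 * l + 2) S r) (fun p hp => by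
            rw [mem_Tset] at hp
            exact ⟨hp.2.1, hp.2.2.1, hp.2.2.2.1, hp.2.2.2.2, hp.1⟩)).2.1
          ((pt l r t : ℝ) / r ^ l) (by positivity)
        refine (measure_mono fun ω hω => hω.2.2).trans (h2.trans (ENNReal.ofReal_le_ofReal ?_))
        apply le_of_eq
        push_cast
        rw [pow_mul']
        field_simp
      · have : {ω | 8 ≤ r ∧ pt l r t ≤ 2 ^ (r + 1) ∧ (pt l r t : ℝ) / r ^ l ≤
          |Y1 a b c d S X (Tset (M0 a b c d) (3 * l + 2) S r) (pt l r t) ω|} = ∅ := by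
          ext ω
          constructor
          · intro h; exact absurd h.2.1 hpt
          · intro h; exact absurd h (Set.notMem_empty ω)
        rw [this, measure_empty]
        exact bot_le
    refine (sum_le_sum h1).trans ?_
    rw [sum_const, card_range, nsmul_eq_mul, ← ENNReal.ofReal_natCast,
      ← ENNReal.ofReal_mul (Nat.cast_nonneg _)]
    apply ENNReal.ofReal_le_ofReal
    have h2 : ((r ^ l + 1 : ℕ) : ℝ) ≤ 2 * (r : ℝ) ^ l := by
      push_cast
      have := one_le_pow₀ hr1 (n := l)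
      linarith
    calc ((r ^ l + 1 : ℕ) : ℝ) * (C * r ^ (2 * l) / r ^ (3 * l + 2)) ≤
        2 * (r : ℝ) ^ l * (C * r ^ (2 * l) / r ^ (3 * l + 2)) :=
          mul_le_mul_of_nonneg_right h2 (by positivity)
      _ = 2 * C / r ^ 2 := by
          field_simp
          rw [← pow_add, ← pow_add]
          congr 1
          ring
  · have : BB a b c d S X r = ∅ := by
      unfold BB
      simp [hr]
    rw [this, measure_empty]
    exact bot_le

theorem as1 (hX : Signs μ X) {a b : Fin k → ℕ} {c d : Fin l → ℕ} (hG : Good a b c d)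
    (S : Set ℕ) : ∀ᵐ ω ∂μ, ∃ R : ℕ, ∀ r, R ≤ r → 8 ≤ r → ∀ t < r ^ l + 1, pt l r t ≤ 2 ^ (r + 1) →
    |Y1 a b c d S X (Tset (M0 a b c d) (3 * l + 2) S r) (pt l r t) ω| ≤ (pt l r t : ℝ) / r ^ l := by
  obtain ⟨C, hC, hB⟩ := BB_le (μ := μ) hX hG S
  have hs : ∑' r, μ (BB a b c d S X r) ≠ ⊤ := by
    have h1 : Summable fun r : ℕ => C / (r : ℝ) ^ 2 := by
      have := (Real.summable_one_div_nat_pow (p := 2)).2 (by norm_num)
      simpa [div_eq_mul_inv] using this.mul_left C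
    exact ne_top_of_le_ne_top h1.tsum_ofReal_ne_top (ENNReal.tsum_le_tsum hB)
  filter_upwards [ae_eventually_notMem hs] with ω hω
  obtain ⟨R, hR⟩ := Filter.eventually_atTop.1 hω
  refine ⟨R, fun r hr hr8 t ht hpt => ?_⟩
  by_contra hcon
  push Not at hcon
  apply hR r hr
  unfold BB
  rw [Set.mem_iUnion₂]
  exact ⟨t, mem_range.2 ht, hr8, hpt, hcon.le⟩

end

end Pool.Agent.U322.NL
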