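import Pool.Agent.U322.NL.As

/-! Almost sure bounds: all the integers. -/

set_option autoImplicit false

open Finset MeasureTheory ProbabilityTheory
open Classical

namespace Pool.Agent.U322.NL

variable {k l : ℕ}

theorem ev_pow (m : ℕ) : ∃ R : ℕ, ∀ r, R ≤ r → r ^ m ≤ 2 ^ r := by
  have h := tendsto_pow_const_div_const_pow_of_one_lt m (show (1 : ℝ) < 2 by norm_num)
  have h1 := h.eventually (gt_mem_nhds (show (0 : ℝ) < 1 by norm_num))
  obtain ⟨R, hR⟩ := Filter.eventually_atTop.1 h1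
  refine ⟨R, fun r hr => ?_⟩
  have h2 := hR r hr
  rw [div_lt_one (by positivity)] at h2
  exact_mod_cast h2.le

theorem st_mul (l r : ℕ) (hr : 1 ≤ r) : 2 ^ r < st l r * r ^ l := by
  have h : 0 < r ^ l := by positivity
  have := Nat.lt_mul_div_succ (2 ^ r) h
  unfold st
  rw [mul_comm]
  exact this

theorem st_le (l r : ℕ) : st l r ≤ 2 ^ r + 1 := by
  unfold st
  have := Nat.div_le_self (2 ^ r) (r ^ l)
  omega

theorem short_sum {a b : Fin k → ℕ} {c d : Fin l → ℕ} (hG : Good a b c d) :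
    ∃ C : ℝ, 0 < C ∧ ∃ R : ℕ, ∀ r, R ≤ r → 8 ≤ r → ∀ y x : ℕ, y ≤ 2 ^ (r + 1) →
    x ≤ y + st l r → ∑ n ∈ Ioc y x, W a b n ≤ C * st l r := by
  obtain ⟨C, hC, hw⟩ := wbound hG
  obtain ⟨R, hR⟩ := ev_pow (8 * l)
  refine ⟨C, hC, R, ?_⟩
  intro r hr hr8 y x hy hx
  have h1 : 2 ^ (5 * r) ≤ st l r ^ 8 := by
    have h2 := st_mul l r (by omega)
    have h3 : (2 ^ r) ^ 8 ≤ (st l r * r ^ l) ^ 8 := Nat.pow_le_pow_left h2.le 8
    rw [mul_pow, ← pow_mul, ← pow_mul, mul_comm l 8] at h3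
    have h4 : r ^ (8 * l) ≤ 2 ^ (3 * r) :=
      (hR r hr).trans (Nat.pow_le_pow_right (by norm_num) (by omega))
    have h5 : 2 ^ (5 * r) * 2 ^ (3 * r) ≤ st l r ^ 8 * 2 ^ (3 * r) := by
      calc 2 ^ (5 * r) * 2 ^ (3 * r) = 2 ^ (r * 8) := by rw [← pow_add]; congr 1; ring
        _ ≤ st l r ^ 8 * r ^ (8 * l) := h3
        _ ≤ st l r ^ 8 * 2 ^ (3 * r) := Nat.mul_le_mul_left _ h4
    exact Nat.le_of_mul_le_mul_right h5 (by positivity)
  have h2 : y + 1 + st l r * 1 ≤ 2 ^ (r + 2) := by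
    have h3 := st_le l r
    have h4 : 2 ^ (r + 2) = 2 ^ (r + 1) + 2 ^ r + 2 ^ r := by ring
    have h5 : 2 ≤ 2 ^ r := by
      calc 2 = 2 ^ 1 := rfl
        _ ≤ 2 ^ r := Nat.pow_le_pow_right (by norm_num) (by omega)
    omega
  have h3 := hw r hr8 (y + 1) 1 (st l r) 0 ∅ le_rfl
    (fun p hp h => by
      exfalso
      have := Nat.le_of_dvd one_pos h
      have := hp.two_le
      omega) h1 h2 (fun p hp => absurd hp (notMem_empty p))
  simp only [notMem_empty, false_imp_iff, implies_true, if_true, sum_empty, mul_zero, neg_zero,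
    Real.exp_zero, mul_one] at h3
  refine le_trans ?_ h3
  have h4 : ∑ j ∈ range (st l r), W a b (y + 1 + j) = ∑ n ∈ Ioc y (y + st l r), W a b n := by
    have e : Ioc y (y + st l r) = Ico (y + 1) (y + 1 + st l r) := by
      ext n
      rw [mem_Ioc, mem_Ico]
      omega
    rw [e, sum_Ico_eq_sum_range, Nat.add_sub_cancel_left]
  rw [h4]
  apply sum_le_sum_of_subset_of_nonneg
  · exact Ioc_subset_Ioc_right hx
  · intro n _ _
    exact W_nonneg a b n

section
variable {Ω : Type} [MeasurableSpace Ω] {μ : Measure Ω} [IsProbabilityMeasure μ]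
  {X : ℕ → Ω → ℝ}

theorem FF_sub (hX : Signs μ X) (a b : Fin k → ℕ) (c d : Fin l → ℕ) (S : Set ℕ)
    {y x : ℕ} (hyx : y ≤ x) (ω : Ω) :
    |FF a b c d S X x ω| ≤ |FF a b c d S X y ω| + ∑ n ∈ Ioc y x, W a b n := by
  have e : FF a b c d S X x ω = FF a b c d S X y ω +
      ∑ n ∈ Ioc y x, W a b n * cm (near S X ω) (Q c d n) := by
    unfold FF
    have e1 : Icc 1 x = Icc 1 y ∪ Ioc y x := by
      ext n
      rw [mem_union, mem_Icc, mem_Icc, mem_Ioc]
      omega
    have e2 : Disjoint (Icc 1 y) (Ioc y x) := by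
      rw [disjoint_left]
      intro n h1 h2
      rw [mem_Icc] at h1
      rw [mem_Ioc] at h2
      omega
    rw [e1, sum_union e2]
  rw [e]
  refine (abs_add_le _ _).trans (add_le_add le_rfl ?_)
  exact sum_abs_le hX S _ _ (fun n _ => W_nonneg a b n) _ ω

theorem D_nonneg (S : Set ℕ) (x : ℕ) : 0 ≤ D S x := sum_nonneg fun p _ => by positivity

theorem D_le_self (S : Set ℕ) (x : ℕ) : D S x ≤ x := by
  unfold D
  calc ∑ p ∈ (Ioc (Nat.log 2 x) x).filter (fun p => p.Prime ∧ p ∈ S), (1 : ℝ) / p ≤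
      ∑ _p ∈ (Ioc (Nat.log 2 x) x).filter (fun p => p.Prime ∧ p ∈ S), (1 : ℝ) := by
        apply sum_le_sum
        intro p hp
        rw [mem_filter, mem_Ioc] at hp
        have : (1 : ℝ) ≤ p := by exact_mod_cast hp.2.1.one_lt.le
        rw [div_le_one (by linarith)]
        exact this
    _ = #((Ioc (Nat.log 2 x) x).filter (fun p => p.Prime ∧ p ∈ S)) := by
        rw [sum_const, nsmul_eq_mul, mul_one]
    _ ≤ x := by
        have h1 : #((Ioc (Nat.log 2 x) x).filter (fun p => p.Prime ∧ p ∈ S)) ≤ x := by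
          refine (card_filter_le _ _).trans ?_
          rw [Nat.card_Ioc]
          omega
        exact_mod_cast h1

theorem small_x (hX : Signs μ X) (a b : Fin k → ℕ) (c d : Fin l → ℕ) (S : Set ℕ) (B : ℕ) :
    ∃ C : ℝ, 0 < C ∧ ∀ x : ℕ, 1 ≤ x → x ≤ B → ∀ ω, |FF a b c d S X x ω| ≤
      C * x * Real.exp (-(l * D S x)) := by
  have h0 : 0 ≤ ∑ n ∈ Icc 1 B, W a b n := sum_nonneg fun n _ => W_nonneg a b n
  refine ⟨(∑ n ∈ Icc 1 B, W a b n + 1) * Real.exp (l * B), by positivity, ?_⟩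
  intro x hx1 hx2 ω
  have h1 : |FF a b c d S X x ω| ≤ ∑ n ∈ Icc 1 B, W a b n := by
    refine (sum_abs_le hX S _ _ (fun n _ => W_nonneg a b n) _ ω).trans ?_
    apply sum_le_sum_of_subset_of_nonneg (Icc_subset_Icc_right hx2)
    intro n _ _
    exact W_nonneg a b n
  have hx1' : (1 : ℝ) ≤ x := by exact_mod_cast hx1
  have hx2' : (x : ℝ) ≤ B := by exact_mod_cast hx2
  have h2 : 1 ≤ Real.exp (l * B) * Real.exp (-(l * D S x)) := by
    rw [← Real.exp_add]
    apply Real.one_le_exp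
    have h3 := D_le_self S x
    have h4 : (0 : ℝ) ≤ l := Nat.cast_nonneg l
    nlinarith
  calc |FF a b c d S X x ω| ≤ (∑ n ∈ Icc 1 B, W a b n + 1) * 1 * 1 := by linarith
    _ ≤ (∑ n ∈ Icc 1 B, W a b n + 1) * x * (Real.exp (l * B) * Real.exp (-(l * D S x))) := by
        apply mul_le_mul _ h2 zero_le_one (by positivity)
        apply mul_le_mul_of_nonneg_left hx1' (by positivity)
    _ = _ := by ring

theorem as_one (hX : Signs μ X) {a b : Fin k → ℕ} {c d : Fin l → ℕ} (hG : Good a b c d)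
    (S : Set ℕ) : ∀ᵐ ω ∂μ, ∃ C : ℝ, 0 < C ∧ ∀ x : ℕ, 1 ≤ x →
      |FF a b c d S X x ω| ≤ C * x * Real.exp (-(l * D S x)) := by
  obtain ⟨C1, hC1, hY⟩ := Y1_second (μ := μ) hX hG S
  obtain ⟨Cu, hCu, hup⟩ := mert_up
  obtain ⟨C2, hC2, R2, hshort⟩ := short_sum hG
  obtain ⟨C3, hC3, hD⟩ := D_le (M0 a b c d) (3 * l + 2) (by omega)
  obtain ⟨R4, hR4⟩ := ev_pow l
  filter_upwards [as1 hX hG S] with ω hω
  obtain ⟨R1, hR1⟩ := hω
  set R := R1 + R2 + R4 + 8 with hR
  obtain ⟨C0, hC0, hsmall⟩ := small_x hX a b c d S (2 ^ R)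
  have hl0 : (0 : ℝ) ≤ l := Nat.cast_nonneg l
  set K := (C1 + (C1 + 1 + 2 * C2) * Real.exp (l * Cu)) * Real.exp (l * C3) with hK
  have hK0 : 0 < K := by positivity
  refine ⟨C0 + K, by positivity, ?_⟩
  intro x hx
  have hx0 : (0 : ℝ) < x := by exact_mod_cast hx
  have hE0 : 0 < Real.exp (-(l * D S x)) := Real.exp_pos _
  by_cases hxR : x ≤ 2 ^ R
  · refine (hsmall x hx hxR ω).trans ?_
    have : 0 ≤ K * x * Real.exp (-(l * D S x)) := by positivity
    nlinarith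
  push Not at hxR
  set r := Nat.log 2 x with hr
  have hx1 : 2 ^ r ≤ x := Nat.pow_log_le_self 2 (by omega)
  have hx2 : x < 2 ^ (r + 1) := Nat.lt_pow_succ_log_self (by norm_num) x
  have hRr : R ≤ r := by
    by_contra hcon
    have : 2 ^ (r + 1) ≤ 2 ^ R := Nat.pow_le_pow_right (by norm_num) (by omega)
    omega
  have hr8 : 8 ≤ r := by omega
  have hr0 : (0 : ℝ) < r := by
    have : 0 < r := by omega
    exact_mod_cast this
  have hr1 : (1 : ℝ) ≤ r := by
    have : 1 ≤ r := by omega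
    exact_mod_cast this
  set T := Tset (M0 a b c d) (3 * l + 2) S r with hT
  set E := Real.exp (-(l * ∑ p ∈ T, (1 : ℝ) / p)) with hE
  have hEpos : 0 < E := Real.exp_pos _
  -- compare `1 / r ^ l` with `E`
  have hrl : (1 : ℝ) / r ^ l ≤ Real.exp (l * Cu) * E := by
    have h1 := hup r (by omega) T (fun p hp => by
      rw [hT, mem_Tset] at hp
      exact ⟨hp.2.1, hp.1.trans (Nat.pow_le_pow_right (by norm_num) (Nat.div_le_self _ _))⟩)
    rw [hE, ← Real.exp_add]
    have e : (1 : ℝ) / r ^ l = Real.exp (-(l * Real.log r)) := by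
      rw [Real.exp_neg, ← Real.log_pow, Real.exp_log (by positivity), one_div]
    rw [e]
    apply Real.exp_le_exp.2
    nlinarith
  -- the point of the net
  have hs0 : 0 < st l r := Nat.succ_pos _
  set t := (x - 2 ^ r) / st l r with ht
  have hpt1 : pt l r t ≤ x := by
    unfold pt
    have := Nat.div_mul_le_self (x - 2 ^ r) (st l r)
    rw [← ht] at this
    omega
  have hpt2 : x ≤ pt l r t + st l r := by
    unfold pt
    have := Nat.lt_div_mul_add hs0 (a := x - 2 ^ r)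
    rw [← ht] at this
    omega
  have htl : t < r ^ l + 1 := by
    have h1 := st_mul l r (by omega)
    have h2 : t < r ^ l := by
      rw [ht]
      apply Nat.div_lt_of_lt_mul
      have e : 2 ^ (r + 1) = 2 ^ r + 2 ^ r := by ring
      omega
    omega
  have hpt3 : pt l r t ≤ 2 ^ (r + 1) := by omega
  have hpt4 : 2 ^ r ≤ pt l r t := by unfold pt; omega
  have h1 := hR1 r (by omega) hr8 t htl hpt3
  have h2 := (hY r hr8 (pt l r t) hpt4 hpt3 (r ^ (3 * l + 2)) (Nat.one_le_pow _ _ (by omega)) T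
    (fun p hp => by
      rw [hT, mem_Tset] at hp
      exact ⟨hp.2.1, hp.2.2.1, hp.2.2.2.1, hp.2.2.2.2, hp.1⟩)).2.2 ω
  have h3 := hshort r (by omega) hr8 (pt l r t) x hpt3 hpt2
  have h4 := FF_sub hX a b c d S hpt1 ω
  have hptx : (pt l r t : ℝ) ≤ x := by exact_mod_cast hpt1
  have h5 : (1 : ℝ) / ((r ^ (3 * l + 2) : ℕ) : ℝ) ≤ 1 / r ^ l := by
    push_cast
    apply one_div_le_one_div_of_le (by positivity)
    exact pow_le_pow_right₀ hr1 (by omega)
  have h6 : (st l r : ℝ) ≤ 2 * (x * (1 / r ^ l)) := by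
    have h7 : ((2 ^ r / r ^ l : ℕ) : ℝ) ≤ 2 ^ r / r ^ l := by
      have := Nat.cast_div_le (α := ℝ) (m := 2 ^ r) (n := r ^ l)
      push_cast at this
      exact this
    have h8 : (1 : ℝ) ≤ 2 ^ r / r ^ l := by
      rw [le_div_iff₀ (by positivity), one_mul]
      exact_mod_cast hR4 r (by omega)
    have h9 : (2 : ℝ) ^ r / r ^ l ≤ x * (1 / r ^ l) := by
      rw [mul_one_div]
      apply div_le_div_of_nonneg_right _ (by positivity)
      exact_mod_cast hx1
    have h10 : (st l r : ℝ) = ((2 ^ r / r ^ l : ℕ) : ℝ) + 1 := by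
      unfold st
      push_cast
      rfl
    rw [h10]
    linarith
  have h7 : (pt l r t : ℝ) / r ^ l ≤ x * (1 / r ^ l) := by
    rw [mul_one_div]
    exact div_le_div_of_nonneg_right hptx (by positivity)
  have h8 : C1 * (pt l r t) * (E + 1 / ((r ^ (3 * l + 2) : ℕ) : ℝ)) ≤
      C1 * x * (E + 1 / r ^ l) := by
    apply mul_le_mul _ (by linarith) (by positivity) (by positivity)
    exact mul_le_mul_of_nonneg_left hptx hC1.le
  have h9 : C2 * (st l r : ℝ) ≤ C2 * (2 * (x * (1 / r ^ l))) := mul_le_mul_of_nonneg_left h6 hC2.le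
  have h10 : |FF a b c d S X x ω| ≤ x * (C1 * E + (C1 + 1 + 2 * C2) * (1 / r ^ l)) := by
    have e : x * (C1 * E + (C1 + 1 + 2 * C2) * (1 / r ^ l)) =
        C1 * x * (E + 1 / r ^ l) + x * (1 / r ^ l) + C2 * (2 * (x * (1 / (r : ℝ) ^ l))) := by ring
    rw [e]
    linarith
  have h11 : (C1 + 1 + 2 * C2) * (1 / (r : ℝ) ^ l) ≤ (C1 + 1 + 2 * C2) * (Real.exp (l * Cu) * E) :=
    mul_le_mul_of_nonneg_left hrl (by positivity)
  have h12 : E ≤ Real.exp (l * C3) * Real.exp (-(l * D S x)) := by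
    rw [hE, ← Real.exp_add]
    apply Real.exp_le_exp.2
    have := hD S r hr8 x hx1 hx2
    nlinarith
  have h13 : |FF a b c d S X x ω| ≤ K * x * Real.exp (-(l * D S x)) := by
    refine h10.trans ?_
    calc x * (C1 * E + (C1 + 1 + 2 * C2) * (1 / r ^ l)) ≤
        x * (C1 * E + (C1 + 1 + 2 * C2) * (Real.exp (l * Cu) * E)) :=
          mul_le_mul_of_nonneg_left (by linarith) hx0.le
      _ = x * (C1 + (C1 + 1 + 2 * C2) * Real.exp (l * Cu)) * E := by ring
      _ ≤ x * (C1 + (C1 + 1 + 2 * C2) * Real.exp (l * Cu)) *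
          (Real.exp (l * C3) * Real.exp (-(l * D S x))) :=
          mul_le_mul_of_nonneg_left h12 (by positivity)
      _ = K * x * Real.exp (-(l * D S x)) := by rw [hK]; ring
  have h14 : 0 ≤ C0 * x * Real.exp (-(l * D S x)) := by positivity
  nlinarith

end

end Pool.Agent.U322.NL
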