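import Pool.Agent.U322.NL.Wb

/-! The sums over a block `2 ^ r ≤ x ≤ 2 ^ (r + 1)`. -/

set_option autoImplicit false

open Finset
open Classical

namespace Pool.Agent.U322.NL

variable {k l : ℕ}

/-- a linear form is divisible by `q` on one class modulo `q` -/
theorem one_class {c d q : ℕ} (hq : 1 ≤ q) (hcq : Nat.Coprime c q) :
    ∃ ρ < q, ∀ n, q ∣ c * n + d → ρ ≤ n ∧ n = ρ + (n / q) * q := by
  by_cases hex : ∃ n, q ∣ c * n + d
  · obtain ⟨m, hm⟩ := hex
    refine ⟨m % q, Nat.mod_lt _ hq, fun n hn => ?_⟩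
    have h1 : (c * n + d) ≡ (c * m + d) [MOD q] := by
      rw [Nat.ModEq, Nat.mod_eq_zero_of_dvd hn, Nat.mod_eq_zero_of_dvd hm]
    have h2 : c * n ≡ c * m [MOD q] := Nat.ModEq.add_right_cancel' d h1
    have h3 : n ≡ m [MOD q] := Nat.ModEq.cancel_left_of_coprime (by rwa [Nat.gcd_comm]) h2
    have h4 : n % q = m % q := h3
    rw [← h4]
    exact ⟨Nat.mod_le _ _, by rw [Nat.mul_comm]; exact (Nat.mod_add_div n q).symm⟩
  · exact ⟨0, hq, fun n hn => absurd ⟨n, hn⟩ hex⟩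

theorem sum_class {a b : Fin k → ℕ} {c d : Fin l → ℕ} (hG : Good a b c d) :
    ∃ C : ℝ, 0 < C ∧ ∀ r : ℕ, 8 ≤ r → ∀ x : ℕ, 2 ^ r ≤ x → x ≤ 2 ^ (r + 1) → ∀ p : ℕ, p.Prime →
    M0 a b c d < p → p ≤ 2 ^ (r / 8) → ∀ e : ℕ, 1 ≤ e → e ≤ 2 → ∀ j,
    ∑ n ∈ Icc 1 x with p ^ e ∣ c j * n + d j, W a b n ≤ C * x / p ^ e := by
  obtain ⟨C, hC, hw⟩ := wbound hG
  refine ⟨2 * C, by positivity, ?_⟩
  intro r hr x hx1 hx2 p hp hpM hpr e he1 he2 j
  have hp1 : 1 ≤ p := hp.one_lt.le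
  have hq1 : 1 ≤ p ^ e := Nat.one_le_pow _ _ hp.pos
  have hqr : p ^ e ≤ 2 ^ (2 * (r / 8)) := by
    calc p ^ e ≤ (2 ^ (r / 8)) ^ e := Nat.pow_le_pow_left hpr e
      _ ≤ (2 ^ (r / 8)) ^ 2 := Nat.pow_le_pow_right (Nat.one_le_two_pow) he2
      _ = 2 ^ (2 * (r / 8)) := by rw [← pow_mul]; congr 1; ring
  have hqx : p ^ e ≤ x := by
    refine hqr.trans (le_trans ?_ hx1)
    exact Nat.pow_le_pow_right (by norm_num) (by omega)
  have hcop : Nat.Coprime (c j) (p ^ e) := by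
    apply Nat.Coprime.pow_right
    rw [Nat.coprime_comm, Nat.Prime.coprime_iff_not_dvd hp]
    exact not_dvd_a hG.sum_a hpM (Sum.inr j)
  obtain ⟨ρ, hρ, hcl⟩ := one_class (c := c j) (d := d j) hq1 hcop
  set q := p ^ e with hq
  set N := x / q + 1 with hN
  have hNx : x < N * q := by
    rw [hN]
    have := Nat.lt_div_mul_add (a := x) (b := q) (by omega)
    nlinarith
  have hN8 : 2 ^ (5 * r) ≤ N ^ 8 := by
    have h1 : (2 ^ r) ^ 8 ≤ (N * q) ^ 8 := Nat.pow_le_pow_left (by omega) 8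
    have h2 : q ^ 8 ≤ 2 ^ (2 * r) := by
      calc q ^ 8 ≤ (2 ^ (2 * (r / 8))) ^ 8 := Nat.pow_le_pow_left hqr 8
        _ = 2 ^ (2 * (r / 8) * 8) := by rw [← pow_mul]
        _ ≤ 2 ^ (2 * r) := Nat.pow_le_pow_right (by norm_num) (by omega)
    have h3 : 2 ^ (5 * r) * 2 ^ (2 * r) ≤ N ^ 8 * 2 ^ (2 * r) := by
      calc 2 ^ (5 * r) * 2 ^ (2 * r) = 2 ^ (7 * r) := by rw [← pow_add]; congr 1; ring
        _ ≤ 2 ^ (r * 8) := Nat.pow_le_pow_right (by norm_num) (by omega)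
        _ = (2 ^ r) ^ 8 := by rw [← pow_mul]
        _ ≤ (N * q) ^ 8 := h1
        _ = N ^ 8 * q ^ 8 := mul_pow _ _ _
        _ ≤ N ^ 8 * 2 ^ (2 * r) := Nat.mul_le_mul_left _ h2
    exact Nat.le_of_mul_le_mul_right h3 (by positivity)
  have hend : ρ + N * q ≤ 2 ^ (r + 2) := by
    have h1 : N * q ≤ x + q := by
      rw [hN, add_mul, one_mul]
      have := Nat.div_mul_le_self x q
      omega
    have h2 : 2 * q ≤ 2 ^ (r + 1) := by
      calc 2 * q ≤ 2 * 2 ^ (2 * (r / 8)) := Nat.mul_le_mul_left 2 hqr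
        _ = 2 ^ (2 * (r / 8) + 1) := by rw [pow_succ]; ring
        _ ≤ 2 ^ (r + 1) := Nat.pow_le_pow_right (by norm_num) (by omega)
    have e2 : 2 ^ (r + 2) = 2 ^ (r + 1) + 2 ^ (r + 1) := by ring
    omega
  have h := hw r hr ρ q N p ∅ hq1 (fun p' hp' hd => by
    have := hp'.dvd_of_dvd_pow (hq ▸ hd)
    exact (Nat.prime_dvd_prime_iff_eq hp' hp).1 this) hN8 hend (by simp)
  simp only [notMem_empty, false_imp_iff, implies_true, if_true, sum_empty, mul_zero, neg_zero,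
    Real.exp_zero, mul_one] at h
  have hxq : (1 : ℝ) ≤ (x : ℝ) / q := by
    rw [le_div_iff₀ (by exact_mod_cast hq1), one_mul]
    exact_mod_cast hqx
  have hNle : (N : ℝ) ≤ 2 * (x / q) := by
    rw [hN]; push_cast
    have : ((x / q : ℕ) : ℝ) ≤ (x : ℝ) / q := Nat.cast_div_le
    linarith
  have hsum : ∑ n ∈ Icc 1 x with q ∣ c j * n + d j, W a b n ≤ ∑ t ∈ range N, W a b (ρ + t * q) := by
    have hinj : Set.InjOn (fun n => n / q) ↑(filter (fun n => q ∣ c j * n + d j) (Icc 1 x)) := by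
      intro n hn m hm hnm
      rw [mem_coe, mem_filter] at hn hm
      have h1 := (hcl n hn.2).2
      have h2 := (hcl m hm.2).2
      beta_reduce at hnm
      rw [h1, h2, hnm]
    calc ∑ n ∈ Icc 1 x with q ∣ c j * n + d j, W a b n =
        ∑ n ∈ Icc 1 x with q ∣ c j * n + d j, W a b (ρ + (n / q) * q) := by
          apply sum_congr rfl
          intro n hn
          rw [mem_filter] at hn
          rw [← (hcl n hn.2).2]
      _ = ∑ t ∈ (filter (fun n => q ∣ c j * n + d j) (Icc 1 x)).image (fun n => n / q),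
            W a b (ρ + t * q) := by
          rw [sum_image hinj]
      _ ≤ ∑ t ∈ range N, W a b (ρ + t * q) := by
          apply sum_le_sum_of_subset_of_nonneg
          · intro t ht
            rw [mem_image] at ht
            obtain ⟨n, hn, rfl⟩ := ht
            rw [mem_filter, mem_Icc] at hn
            rw [mem_range, hN]
            have := Nat.div_le_div_right (c := q) hn.1.2
            omega
          · intro t _ _
            exact W_nonneg a b _
  have hqc : ((p : ℝ) ^ e) = (q : ℝ) := by rw [hq]; push_cast; rfl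
  rw [hqc]
  calc ∑ n ∈ Icc 1 x with q ∣ c j * n + d j, W a b n ≤ C * N := hsum.trans h
    _ ≤ C * (2 * (x / q)) := mul_le_mul_of_nonneg_left hNle hC.le
    _ = 2 * C * x / q := by ring

theorem Q_ne {a b : Fin k → ℕ} {c d : Fin l → ℕ} (hG : Good a b c d) {n : ℕ} (hn : 1 ≤ n) :
    ∀ j, c j * n + d j ≠ 0 := by
  intro j
  have := Nat.mul_pos (hG.hc j) hn
  omega

/-- a large prime divides at most one of the forms -/
theorem fact_Q {a b : Fin k → ℕ} {c d : Fin l → ℕ} (hG : Good a b c d) {n p : ℕ} (hn : 1 ≤ n)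
    (_hp : p.Prime) (hpM : M0 a b c d < p) {j : Fin l} (hj : p ∣ c j * n + d j) :
    (Q c d n).factorization p = (c j * n + d j).factorization p := by
  unfold Q
  rw [Nat.factorization_prod (fun j _ => Q_ne hG hn j), Finsupp.finsetSum_apply]
  apply sum_eq_single j
  · intro j' _ hj'
    apply Nat.factorization_eq_zero_of_not_dvd
    intro hdvd
    have hd := not_dvd_det (ι := Fin k ⊕ Fin l) (a := Sum.elim a c) (b := Sum.elim b d)
      (i := Sum.inr j) (j := Sum.inr j') hpM (hG.sum_d _ _ fun e => hj' (Sum.inr_injective e).symm)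
    apply hd
    simp only [Sum.elim_inr]
    have h1 : (p : ℤ) ∣ (c j : ℤ) * n + d j := by exact_mod_cast hj
    have h2 : (p : ℤ) ∣ (c j' : ℤ) * n + d j' := by exact_mod_cast hdvd
    have h3 := dvd_sub (Dvd.dvd.mul_left h2 (c j : ℤ)) (Dvd.dvd.mul_left h1 (c j' : ℤ))
    have e3 : (c j : ℤ) * (c j' * n + d j') - c j' * (c j * n + d j) = c j * d j' - c j' * d j := by
      ring
    rwa [e3] at h3
  · intro h
    exact absurd (mem_univ j) h

end Pool.Agent.U322.NL
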