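import Pool.Agent.U322.NL.Blk

/-! The sums over a block: the square part and the second moment. -/

set_option autoImplicit false

open Finset
open Classical

namespace Pool.Agent.U322.NL

variable {k l : ℕ}

/-- all exponents of the primes in `T` are even -/
def Ev (c d : Fin l → ℕ) (T : Finset ℕ) (n : ℕ) : Prop := ∀ p ∈ T, Even ((Q c d n).factorization p)

theorem inv_sq (T : Finset ℕ) {w : ℕ} (hw : 1 ≤ w) (hT : ∀ p ∈ T, w < p) :
    ∑ p ∈ T, (1 : ℝ) / (p : ℝ) ^ 2 ≤ 1 / w := by
  set m := T.sup id + w with hm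
  have hsub : T ⊆ Ioc w m := by
    intro p hp
    rw [mem_Ioc]
    have := le_sup (f := id) hp
    simp only [id] at this
    exact ⟨hT p hp, by omega⟩
  have h1 := sum_le_sum_of_subset_of_nonneg (f := fun p : ℕ => (1 : ℝ) / (p : ℝ) ^ 2) hsub
    (fun _ _ _ => by positivity)
  refine h1.trans ?_
  have h2 := sum_Ioc_inv_sq_le_sub (α := ℝ) (k := w) (n := m) (by omega) (by omega)
  simp only [one_div]
  refine h2.trans ?_
  have : (0 : ℝ) ≤ (m : ℝ)⁻¹ := by positivity
  linarith

theorem block {a b : Fin k → ℕ} {c d : Fin l → ℕ} (hG : Good a b c d) :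
    ∃ C : ℝ, 0 < C ∧ ∀ r : ℕ, 8 ≤ r → ∀ x : ℕ, 2 ^ r ≤ x → x ≤ 2 ^ (r + 1) → ∀ w : ℕ, 1 ≤ w →
    ∀ T : Finset ℕ, (∀ p ∈ T, p.Prime ∧ M0 a b c d < p ∧ w < p ∧ p ≤ 2 ^ (r / 8)) →
    (∑ n ∈ Icc 1 x with Ev c d T n, W a b n ≤
      C * x * (Real.exp (-(l * ∑ p ∈ T, (1 : ℝ) / p)) + 1 / w)) ∧
    (∑ p ∈ T, (∑ n ∈ (Icc 1 x).filter (fun n => ¬ Ev c d T n) with p ∣ Q c d n, W a b n) ^ 2 ≤
      C * x ^ 2 / w) := by
  obtain ⟨C1, hC1, hw1⟩ := wbound hG
  obtain ⟨C2, hC2, hw2⟩ := sum_class hG
  refine ⟨2 * C1 + C2 * l + (C2 * l) ^ 2 , by positivity, ?_⟩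
  intro r hr x hx1 hx2 w hw T hT
  have hx0 : 1 ≤ x := le_trans Nat.one_le_two_pow hx1
  have hxr : (1 : ℝ) ≤ x := by exact_mod_cast hx0
  have hwr : (0 : ℝ) < w := by exact_mod_cast hw
  have hinv := inv_sq T hw (fun p hp => (hT p hp).2.2.1)
  set E := Real.exp (-(l * ∑ p ∈ T, (1 : ℝ) / p)) with hE
  have hE0 : 0 < E := Real.exp_pos _
  -- the part without primes of `T`
  have hA : ∑ n ∈ Icc 1 x with (∀ p ∈ T, ¬ p ∣ Q c d n), W a b n ≤ 2 * C1 * x * E := by
    have h8 : 2 ^ (5 * r) ≤ (x + 1) ^ 8 := by
      calc 2 ^ (5 * r) ≤ 2 ^ (r * 8) := Nat.pow_le_pow_right (by norm_num) (by omega)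
        _ = (2 ^ r) ^ 8 := by rw [← pow_mul]
        _ ≤ (x + 1) ^ 8 := Nat.pow_le_pow_left (by omega) 8
    have h := hw1 r hr 0 1 (x + 1) 0 T le_rfl (fun p hp hd => by
      have := Nat.dvd_one.1 hd
      exact absurd hp (by rw [this]; decide)) h8 (by
        have e2 : 2 ^ (r + 2) = 2 ^ (r + 1) + 2 ^ (r + 1) := by ring
        have := Nat.one_le_two_pow (n := r + 1)
        omega) (fun p hp => ⟨(hT p hp).1, (hT p hp).2.1, (hT p hp).2.2.2⟩)
    simp only [zero_add, mul_one] at h
    have h2 : ∑ n ∈ Icc 1 x with (∀ p ∈ T, ¬ p ∣ Q c d n), W a b n ≤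
        ∑ j ∈ range (x + 1), (if ∀ p ∈ T, ¬ p ∣ Q c d j then W a b j else 0) := by
      rw [sum_filter]
      apply sum_le_sum_of_subset_of_nonneg
      · intro n hn
        rw [mem_Icc] at hn
        rw [mem_range]
        omega
      · intro n _ _
        split_ifs
        · exact W_nonneg a b n
        · exact le_rfl
    refine h2.trans (h.trans ?_)
    push_cast
    have : C1 * ((x : ℝ) + 1) ≤ C1 * (2 * x) := mul_le_mul_of_nonneg_left (by linarith) hC1.le
    calc C1 * ((x : ℝ) + 1) * E ≤ C1 * (2 * x) * E := mul_le_mul_of_nonneg_right this hE0.le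
      _ = 2 * C1 * x * E := by ring
  have hB : ∀ p ∈ T, ∀ e, 1 ≤ e → e ≤ 2 → ∑ j, ∑ n ∈ Icc 1 x with p ^ e ∣ c j * n + d j, W a b n ≤
      C2 * l * x / p ^ e := by
    intro p hp e he1 he2
    calc ∑ j, ∑ n ∈ Icc 1 x with p ^ e ∣ c j * n + d j, W a b n ≤ ∑ _j : Fin l, C2 * x / p ^ e :=
          sum_le_sum fun j _ => hw2 r hr x hx1 hx2 p (hT p hp).1 (hT p hp).2.1 (hT p hp).2.2.2 e he1 he2 j
      _ = C2 * l * x / p ^ e := by
          rw [sum_const, card_univ, Fintype.card_fin, nsmul_eq_mul]; ring
  constructor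
  · have hpt : ∀ n ∈ Icc 1 x, (if Ev c d T n then W a b n else 0) ≤
        (if ∀ p ∈ T, ¬ p ∣ Q c d n then W a b n else 0) +
        ∑ p ∈ T, ∑ j, (if p ^ 2 ∣ c j * n + d j then W a b n else 0) := by
      intro n hn
      rw [mem_Icc] at hn
      have hWn := W_nonneg a b n
      have h0 : 0 ≤ ∑ p ∈ T, ∑ j, (if p ^ 2 ∣ c j * n + d j then W a b n else 0) := by
        apply sum_nonneg; intro p _
        apply sum_nonneg; intro j _
        split_ifs
        · exact hWn
        · exact le_rfl
      have h0' : 0 ≤ (if ∀ p ∈ T, ¬ p ∣ Q c d n then W a b n else 0) := by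
        split_ifs
        · exact hWn
        · exact le_rfl
      by_cases hev : Ev c d T n
      · rw [if_pos hev]
        by_cases hno : ∀ p ∈ T, ¬ p ∣ Q c d n
        · rw [if_pos hno]; linarith
        · push Not at hno
          obtain ⟨p, hp, hpQ⟩ := hno
          have hpp := (hT p hp).1
          have hj : ∃ j, p ∣ c j * n + d j := by
            unfold Q at hpQ
            rw [hpp.prime.dvd_finsetProd_iff] at hpQ
            obtain ⟨j, _, hj⟩ := hpQ
            exact ⟨j, hj⟩
          obtain ⟨j, hj⟩ := hj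
          have h1 := hev p hp
          rw [fact_Q hG hn.1 hpp (hT p hp).2.1 hj] at h1
          have h2 : 1 ≤ (c j * n + d j).factorization p :=
            (hpp.dvd_iff_one_le_factorization (Q_ne hG hn.1 j)).1 hj
          have h3 : 2 ≤ (c j * n + d j).factorization p := by
            obtain ⟨t, ht⟩ := h1
            omega
          have h4 : p ^ 2 ∣ c j * n + d j := (hpp.pow_dvd_iff_le_factorization (Q_ne hG hn.1 j)).2 h3
          have h5 : W a b n ≤ ∑ p ∈ T, ∑ j, (if p ^ 2 ∣ c j * n + d j then W a b n else 0) := by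
            have h6 : W a b n ≤ ∑ j, (if p ^ 2 ∣ c j * n + d j then W a b n else 0) := by
              have h7 := single_le_sum (f := fun j => if p ^ 2 ∣ c j * n + d j then W a b n else 0)
                (fun j _ => by
                  beta_reduce
                  split_ifs
                  · exact hWn
                  · exact le_rfl) (mem_univ j)
              beta_reduce at h7
              rwa [if_pos h4] at h7
            refine h6.trans ?_
            exact single_le_sum (f := fun p => ∑ j, (if p ^ 2 ∣ c j * n + d j then W a b n else 0))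
              (fun p _ => by
                apply sum_nonneg; intro j _
                split_ifs
                · exact hWn
                · exact le_rfl) hp
          linarith
      · rw [if_neg hev]
        linarith
    have h1 : ∑ n ∈ Icc 1 x with Ev c d T n, W a b n ≤
        ∑ n ∈ Icc 1 x with (∀ p ∈ T, ¬ p ∣ Q c d n), W a b n +
        ∑ p ∈ T, ∑ j, ∑ n ∈ Icc 1 x with p ^ 2 ∣ c j * n + d j, W a b n := by
      rw [sum_filter]
      refine (sum_le_sum hpt).trans (le_of_eq ?_)
      rw [sum_add_distrib, ← sum_filter]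
      congr 1
      rw [sum_comm]
      apply sum_congr rfl
      intro p _
      rw [sum_comm]
      apply sum_congr rfl
      intro j _
      rw [sum_filter]
    have h2 : ∑ p ∈ T, ∑ j, ∑ n ∈ Icc 1 x with p ^ 2 ∣ c j * n + d j, W a b n ≤
        C2 * l * x * (1 / w) := by
      calc ∑ p ∈ T, ∑ j, ∑ n ∈ Icc 1 x with p ^ 2 ∣ c j * n + d j, W a b n ≤
          ∑ p ∈ T, C2 * l * x * (1 / (p : ℝ) ^ 2) := by
            apply sum_le_sum
            intro p hp
            refine (hB p hp 2 (by norm_num) le_rfl).trans (le_of_eq ?_)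
            ring
        _ = C2 * l * x * ∑ p ∈ T, 1 / (p : ℝ) ^ 2 := by rw [mul_sum]
        _ ≤ C2 * l * x * (1 / w) := mul_le_mul_of_nonneg_left hinv (by positivity)
    have h3 : 2 * C1 * x * E + C2 * l * x * (1 / w) ≤
        (2 * C1 + C2 * l + (C2 * l) ^ 2) * x * (E + 1 / w) := by
      have e : (2 * C1 + C2 * l + (C2 * l) ^ 2) * x * (E + 1 / w) =
        2 * C1 * x * E + C2 * l * x * (1 / w) + (2 * C1 * x * (1 / w) + C2 * l * x * E +
          (C2 * l) ^ 2 * x * (E + 1 / w)) := by ring
      rw [e]
      have : 0 ≤ 2 * C1 * x * (1 / w) + C2 * l * x * E + (C2 * l) ^ 2 * x * (E + 1 / w) := by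
        positivity
      linarith
    linarith
  · calc ∑ p ∈ T, (∑ n ∈ (Icc 1 x).filter (fun n => ¬ Ev c d T n) with p ∣ Q c d n, W a b n) ^ 2 ≤
        ∑ p ∈ T, (C2 * l * x) ^ 2 * (1 / (p : ℝ) ^ 2) := by
          apply sum_le_sum
          intro p hp
          have h1 : ∑ n ∈ (Icc 1 x).filter (fun n => ¬ Ev c d T n) with p ∣ Q c d n, W a b n ≤
              C2 * l * x / p := by
            have hpt : ∀ n ∈ Icc 1 x, (if p ∣ Q c d n then W a b n else 0) ≤
                ∑ j, (if p ^ 1 ∣ c j * n + d j then W a b n else 0) := by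
              intro n _
              have hWn := W_nonneg a b n
              split_ifs with hpQ
              · unfold Q at hpQ
                rw [(hT p hp).1.prime.dvd_finsetProd_iff] at hpQ
                obtain ⟨j, _, hj⟩ := hpQ
                have h7 := single_le_sum (f := fun j => if p ^ 1 ∣ c j * n + d j then W a b n else 0)
                  (fun j _ => by
                    beta_reduce
                    split_ifs
                    · exact hWn
                    · exact le_rfl) (mem_univ j)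
                beta_reduce at h7
                rw [pow_one] at h7
                rw [if_pos hj] at h7
                rwa [pow_one]
              · apply sum_nonneg; intro j _
                split_ifs
                · exact hWn
                · exact le_rfl
            calc ∑ n ∈ (Icc 1 x).filter (fun n => ¬ Ev c d T n) with p ∣ Q c d n, W a b n ≤
                ∑ n ∈ Icc 1 x with p ∣ Q c d n, W a b n := by
                  apply sum_le_sum_of_subset_of_nonneg
                  · intro n hn
                    rw [mem_filter, mem_filter] at hn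
                    rw [mem_filter]
                    exact ⟨hn.1.1, hn.2⟩
                  · intro n _ _
                    exact W_nonneg a b n
              _ = ∑ n ∈ Icc 1 x, (if p ∣ Q c d n then W a b n else 0) := sum_filter _ _
              _ ≤ ∑ n ∈ Icc 1 x, ∑ j, (if p ^ 1 ∣ c j * n + d j then W a b n else 0) :=
                  sum_le_sum hpt
              _ = ∑ j, ∑ n ∈ Icc 1 x with p ^ 1 ∣ c j * n + d j, W a b n := by
                  rw [sum_comm]
                  apply sum_congr rfl
                  intro j _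
                  rw [sum_filter]
              _ ≤ C2 * l * x / p ^ 1 := hB p hp 1 le_rfl (by norm_num)
              _ = C2 * l * x / p := by rw [pow_one]
          have h0 : 0 ≤ ∑ n ∈ (Icc 1 x).filter (fun n => ¬ Ev c d T n) with p ∣ Q c d n, W a b n :=
            sum_nonneg fun n _ => W_nonneg a b n
          calc _ ≤ (C2 * l * x / p) ^ 2 := pow_le_pow_left₀ h0 h1 2
            _ = _ := by rw [div_pow]; ring
      _ = (C2 * l * x) ^ 2 * ∑ p ∈ T, 1 / (p : ℝ) ^ 2 := by rw [mul_sum]
      _ ≤ (C2 * l * x) ^ 2 * (1 / w) := mul_le_mul_of_nonneg_left hinv (by positivity)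
      _ = (C2 * l) ^ 2 * x ^ 2 / w := by ring
      _ ≤ _ := by
          apply div_le_div_of_nonneg_right _ hwr.le
          apply mul_le_mul_of_nonneg_right _ (by positivity)
          have : 0 ≤ 2 * C1 + C2 * l := by positivity
          linarith

end Pool.Agent.U322.NL
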