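import Mathlib

/-! Random completely multiplicative functions near the Liouville function: second moments. -/

set_option autoImplicit false
set_option linter.unusedSectionVars false

open Finset MeasureTheory ProbabilityTheory
open Classical

namespace Pool.Agent.U322.NL

/-- the completely multiplicative function with the values `g p` at the primes `p` -/
noncomputable def cm (g : ℕ → ℝ) (n : ℕ) : ℝ := n.factorization.prod fun p e => g p ^ e

theorem cm_one (g : ℕ → ℝ) : cm g 1 = 1 := by simp [cm]

theorem cm_mul (g : ℕ → ℝ) {m n : ℕ} (hm : m ≠ 0) (hn : n ≠ 0) :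
    cm g (m * n) = cm g m * cm g n := by
  unfold cm
  rw [Nat.factorization_mul hm hn]
  exact Finsupp.prod_add_index' (fun _ => pow_zero _) (fun _ _ _ => pow_add _ _ _)

theorem cm_prod (g : ℕ → ℝ) {ι : Type} (s : Finset ι) (f : ι → ℕ) (hf : ∀ i ∈ s, f i ≠ 0) :
    cm g (∏ i ∈ s, f i) = ∏ i ∈ s, cm g (f i) := by
  induction s using Finset.induction_on with
  | empty => simp [cm_one]
  | insert a s ha ih =>
    rw [prod_insert ha, prod_insert ha, cm_mul g (hf a (mem_insert_self _ _))
      (prod_ne_zero_iff.2 fun i hi => hf i (mem_insert_of_mem hi)),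
      ih fun i hi => hf i (mem_insert_of_mem hi)]

theorem abs_cm {g : ℕ → ℝ} (hg : ∀ p, g p = 1 ∨ g p = -1) (n : ℕ) : |cm g n| = 1 := by
  unfold cm Finsupp.prod
  rw [abs_prod]
  apply prod_eq_one
  intro p _
  rw [abs_pow]
  rcases hg p with h | h <;> rw [h] <;> simp

/-- the values at the primes: `-1` at the primes off `S`, the random signs at the primes in `S` -/
noncomputable def near {Ω : Type} (S : Set ℕ) (X : ℕ → Ω → ℝ) (ω : Ω) (p : ℕ) : ℝ :=
  if p ∈ S then X p ω else -1

/-- independent fair random signs -/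
structure Signs {Ω : Type} [MeasurableSpace Ω] (μ : Measure Ω) (X : ℕ → Ω → ℝ) : Prop where
  meas : ∀ p, Measurable (X p)
  indep : iIndepFun X μ
  val : ∀ p ω, X p ω = 1 ∨ X p ω = -1
  mean : ∀ p, ∫ ω, X p ω ∂μ = 0

variable {Ω : Type} [MeasurableSpace Ω] {μ : Measure Ω} [IsProbabilityMeasure μ]
  {X : ℕ → Ω → ℝ} {S : Set ℕ}

theorem near_val (hX : Signs μ X) (ω : Ω) (p : ℕ) : near S X ω p = 1 ∨ near S X ω p = -1 := by
  unfold near
  split_ifs
  · exact hX.val p ω
  · right; rfl

theorem near_meas (hX : Signs μ X) (p : ℕ) : Measurable fun ω => near S X ω p := by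
  unfold near
  split_ifs
  · exact hX.meas p
  · exact measurable_const

theorem cm_near_meas (hX : Signs μ X) (n : ℕ) : Measurable fun ω => cm (near S X ω) n := by
  unfold cm Finsupp.prod
  apply Finset.measurable_fun_prod
  intro p _
  exact (near_meas hX p).pow_const _

theorem sign_odd {x : ℝ} (hx : x = 1 ∨ x = -1) {e : ℕ} (he : Odd e) : x ^ e = x := by
  rcases hx with h | h
  · rw [h, one_pow]
  · rw [h, he.neg_one_pow]

/-- the mean of `f(n)` vanishes if some prime of `S` has an odd exponent in `n` -/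
theorem mean_zero (hX : Signs μ X) {n p : ℕ} (hpS : p ∈ S) (hodd : Odd (n.factorization p)) :
    ∫ ω, cm (near S X ω) n ∂μ = 0 := by
  have hp : p ∈ n.factorization.support := by
    rw [Finsupp.mem_support_iff]
    intro h
    rw [h] at hodd
    exact absurd hodd (by decide)
  set s := n.factorization.support with hs
  have e1 : ∀ ω, cm (near S X ω) n = ∏ q : s,
      (if (q : ℕ) ∈ S then X q ω else -1) ^ n.factorization q := by
    intro ω
    unfold cm Finsupp.prod
    rw [← hs, ← prod_coe_sort s (fun q => near S X ω q ^ n.factorization q)]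
    rfl
  have hind : iIndepFun (fun q : s => X q) μ := hX.indep.precomp Subtype.val_injective
  have h2 := hind.integral_fun_prod_comp
    (f := fun (q : s) (x : ℝ) => (if (q : ℕ) ∈ S then x else -1) ^ n.factorization q)
    (fun q => (hX.meas q).aemeasurable) (fun q => by
      apply Measurable.aestronglyMeasurable
      by_cases hq : (q : ℕ) ∈ S
      · simp only [hq, if_true]
        exact measurable_id.pow_const _
      · simp only [hq, if_false]
        exact measurable_const)
  calc ∫ ω, cm (near S X ω) n ∂μ = ∫ ω, ∏ q : s,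
      (if (q : ℕ) ∈ S then X q ω else -1) ^ n.factorization q ∂μ := by
        congr 1
        funext ω
        exact e1 ω
    _ = ∏ q : s, ∫ ω, (if (q : ℕ) ∈ S then X q ω else -1) ^ n.factorization q ∂μ := h2
    _ = 0 := by
        apply prod_eq_zero (mem_univ (⟨p, hp⟩ : s))
        simp only [hpS, if_true]
        rw [← hX.mean p]
        congr 1
        funext ω
        exact sign_odd (hX.val p ω) hodd

theorem cm_integrable (hX : Signs μ X) (n : ℕ) : Integrable (fun ω => cm (near S X ω) n) μ := by
  apply Integrable.of_bound (cm_near_meas hX n).aestronglyMeasurable 1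
  filter_upwards with ω
  rw [Real.norm_eq_abs, abs_cm (near_val hX ω)]

theorem mean_le (hX : Signs μ X) (n : ℕ) : ∫ ω, cm (near S X ω) n ∂μ ≤ 1 := by
  have h : ∫ ω, cm (near S X ω) n ∂μ ≤ ∫ _ω, (1 : ℝ) ∂μ := by
    apply integral_mono (cm_integrable hX n) (integrable_const _)
    intro ω
    have := abs_cm (near_val (S := S) hX ω) n
    exact (le_abs_self _).trans this.le
  simpa using h

/-- the second moment -/
theorem second (hX : Signs μ X) (A : Finset ℕ) (w : ℕ → ℝ) (hw : ∀ n ∈ A, 0 ≤ w n) (M : ℕ → ℕ)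
    (hM : ∀ n ∈ A, M n ≠ 0) (T : Finset ℕ) (hT : ∀ p ∈ T, p.Prime ∧ p ∈ S)
    (hodd : ∀ n ∈ A, ∃ p ∈ T, Odd ((M n).factorization p)) :
    ∫ ω, (∑ n ∈ A, w n * cm (near S X ω) (M n)) ^ 2 ∂μ ≤
      ∑ p ∈ T, (∑ n ∈ A with p ∣ M n, w n) ^ 2 := by
  have e1 : ∀ ω, (∑ n ∈ A, w n * cm (near S X ω) (M n)) ^ 2 =
      ∑ n ∈ A, ∑ m ∈ A, w n * w m * cm (near S X ω) (M n * M m) := by
    intro ω
    rw [sq, sum_mul_sum]
    apply sum_congr rfl
    intro n hn
    apply sum_congr rfl
    intro m hm
    rw [cm_mul _ (hM n hn) (hM m hm)]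
    ring
  have e2 : ∫ ω, (∑ n ∈ A, w n * cm (near S X ω) (M n)) ^ 2 ∂μ =
      ∑ n ∈ A, ∑ m ∈ A, w n * w m * ∫ ω, cm (near S X ω) (M n * M m) ∂μ := by
    simp_rw [e1]
    rw [integral_finsetSum]
    · apply sum_congr rfl
      intro n _
      rw [integral_finsetSum]
      · apply sum_congr rfl
        intro m _
        rw [integral_const_mul]
      · intro m _
        exact (cm_integrable hX _).const_mul _
    · intro n _
      apply integrable_finsetSum
      intro m _
      exact (cm_integrable hX _).const_mul _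
  rw [e2]
  have e3 : ∀ n ∈ A, ∀ m ∈ A, w n * w m * ∫ ω, cm (near S X ω) (M n * M m) ∂μ ≤
      ∑ p ∈ T, (if p ∣ M n then w n else 0) * (if p ∣ M m then w m else 0) := by
    intro n hn m hm
    have hnn : 0 ≤ w n * w m := mul_nonneg (hw n hn) (hw m hm)
    have hterm : ∀ p ∈ T, 0 ≤ (if p ∣ M n then w n else 0) * (if p ∣ M m then w m else 0) := by
      intro p _
      apply mul_nonneg
      · split_ifs
        · exact hw n hn
        · exact le_rfl
      · split_ifs
        · exact hw m hm
        · exact le_rfl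
    by_cases hall : ∃ p ∈ T, Odd ((M n * M m).factorization p)
    · obtain ⟨p, hp, hp2⟩ := hall
      rw [mean_zero hX (hT p hp).2 hp2, mul_zero]
      exact sum_nonneg hterm
    · push Not at hall
      obtain ⟨p, hp, hp2⟩ := hodd n hn
      have h1 := hall p hp
      rw [Nat.factorization_mul (hM n hn) (hM m hm), Finsupp.add_apply] at h1
      have h2 : Odd ((M m).factorization p) := by
        rw [Nat.not_odd_iff_even] at h1
        rw [← Nat.not_even_iff_odd]
        intro h3
        rw [Nat.even_add] at h1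
        rw [← Nat.not_even_iff_odd] at hp2
        exact hp2 (h1.2 h3)
      have d1 : ∀ k : ℕ, Odd (k.factorization p) → p ∣ k := by
        intro k hk
        by_contra hcon
        rw [Nat.factorization_eq_zero_of_not_dvd hcon] at hk
        exact absurd hk (by decide)
      have h4 : w n * w m ≤ ∑ p ∈ T, (if p ∣ M n then w n else 0) * (if p ∣ M m then w m else 0) := by
        have h5 := single_le_sum hterm hp
        rw [if_pos (d1 _ hp2), if_pos (d1 _ h2)] at h5
        exact h5
      calc w n * w m * ∫ ω, cm (near S X ω) (M n * M m) ∂μ ≤ w n * w m * 1 :=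
            mul_le_mul_of_nonneg_left (mean_le hX _) hnn
        _ = w n * w m := mul_one _
        _ ≤ _ := h4
  calc ∑ n ∈ A, ∑ m ∈ A, w n * w m * ∫ ω, cm (near S X ω) (M n * M m) ∂μ ≤
      ∑ n ∈ A, ∑ m ∈ A, ∑ p ∈ T, (if p ∣ M n then w n else 0) * (if p ∣ M m then w m else 0) :=
        sum_le_sum fun n hn => sum_le_sum fun m hm => e3 n hn m hm
    _ = ∑ p ∈ T, (∑ n ∈ A with p ∣ M n, w n) ^ 2 := by
        have : ∀ p ∈ T, (∑ n ∈ A with p ∣ M n, w n) ^ 2 =
            ∑ n ∈ A, ∑ m ∈ A, (if p ∣ M n then w n else 0) * (if p ∣ M m then w m else 0) := by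
          intro p _
          rw [sum_filter, sq, sum_mul_sum]
        rw [sum_congr rfl this]
        calc ∑ n ∈ A, ∑ m ∈ A, ∑ p ∈ T, (if p ∣ M n then w n else 0) * (if p ∣ M m then w m else 0) =
            ∑ n ∈ A, ∑ p ∈ T, ∑ m ∈ A, (if p ∣ M n then w n else 0) * (if p ∣ M m then w m else 0) :=
              sum_congr rfl fun n _ => sum_comm
          _ = _ := sum_comm

end Pool.Agent.U322.NL
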