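import Pool.Agent.U322.NL.Blk2
import Pool.Agent.U322.NL.Rand

/-! The exceptional events. -/

set_option autoImplicit false

open Finset MeasureTheory ProbabilityTheory
open Classical

namespace Pool.Agent.U322.NL

variable {k l : ℕ}

section
variable {Ω : Type} [MeasurableSpace Ω] {μ : Measure Ω} [IsProbabilityMeasure μ]
  {X : ℕ → Ω → ℝ}

theorem sum_meas (hX : Signs μ X) (S : Set ℕ) (A : Finset ℕ) (w : ℕ → ℝ) (M : ℕ → ℕ) :
    Measurable fun ω => ∑ n ∈ A, w n * cm (near S X ω) (M n) := by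
  apply Finset.measurable_fun_sum
  intro n _
  exact (cm_near_meas hX _).const_mul _

theorem sum_abs_le (hX : Signs μ X) (S : Set ℕ) (A : Finset ℕ) (w : ℕ → ℝ) (hw : ∀ n ∈ A, 0 ≤ w n)
    (M : ℕ → ℕ) (ω : Ω) : |∑ n ∈ A, w n * cm (near S X ω) (M n)| ≤ ∑ n ∈ A, w n := by
  refine (abs_sum_le_sum_abs _ _).trans (sum_le_sum fun n hn => ?_)
  rw [abs_mul, abs_cm (near_val hX ω), mul_one, abs_of_nonneg (hw n hn)]

theorem chev (hX : Signs μ X) (S : Set ℕ) (A : Finset ℕ) (w : ℕ → ℝ) (hw : ∀ n ∈ A, 0 ≤ w n)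
    (M : ℕ → ℕ) {t V : ℝ} (ht : 0 < t)
    (hV : ∫ ω, (∑ n ∈ A, w n * cm (near S X ω) (M n)) ^ 2 ∂μ ≤ V) :
    μ {ω | t ≤ |∑ n ∈ A, w n * cm (near S X ω) (M n)|} ≤ ENNReal.ofReal (V / t ^ 2) := by
  have hmeas := sum_meas hX S A w M
  have hint : Integrable (fun ω => (∑ n ∈ A, w n * cm (near S X ω) (M n)) ^ 2) μ := by
    apply Integrable.of_bound (hmeas.pow_const 2).aestronglyMeasurable ((∑ n ∈ A, w n) ^ 2)
    filter_upwards with ω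
    rw [Real.norm_eq_abs, abs_pow]
    exact pow_le_pow_left₀ (abs_nonneg _) (sum_abs_le hX S A w hw M ω) 2
  have h1 := mul_meas_ge_le_integral_of_nonneg (μ := μ)
    (Filter.Eventually.of_forall fun ω => sq_nonneg _) hint (t ^ 2)
  have h2 : {ω | t ≤ |∑ n ∈ A, w n * cm (near S X ω) (M n)|} ⊆
      {ω | t ^ 2 ≤ (∑ n ∈ A, w n * cm (near S X ω) (M n)) ^ 2} := by
    intro ω hω
    change t ≤ _ at hω
    change t ^ 2 ≤ _
    rw [← sq_abs (∑ n ∈ A, w n * cm (near S X ω) (M n))]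
    exact pow_le_pow_left₀ ht.le hω 2
  refine (measure_mono h2).trans ?_
  rw [← ENNReal.ofReal_toReal (measure_ne_top μ _)]
  apply ENNReal.ofReal_le_ofReal
  rw [le_div_iff₀ (by positivity), mul_comm]
  exact h1.trans hV

/-- the set of the primes used at the level `r` -/
noncomputable def Tset (M : ℕ) (A : ℕ) (S : Set ℕ) (r : ℕ) : Finset ℕ :=
  {p ∈ range (2 ^ (r / 8) + 1) | p.Prime ∧ p ∈ S ∧ M < p ∧ r ^ A < p}

theorem mem_Tset {M A : ℕ} {S : Set ℕ} {r p : ℕ} : p ∈ Tset M A S r ↔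
    p ≤ 2 ^ (r / 8) ∧ p.Prime ∧ p ∈ S ∧ M < p ∧ r ^ A < p := by
  unfold Tset
  rw [mem_filter, mem_range]
  constructor
  · rintro ⟨h1, h2⟩; exact ⟨by omega, h2⟩
  · rintro ⟨h1, h2⟩; exact ⟨by omega, h2⟩

/-- the random part of the sum -/
noncomputable def Y1 (a b : Fin k → ℕ) (c d : Fin l → ℕ) (S : Set ℕ) (X : ℕ → Ω → ℝ) (T : Finset ℕ)
    (x : ℕ) (ω : Ω) : ℝ :=
  ∑ n ∈ (Icc 1 x).filter (fun n => ¬ Ev c d T n), W a b n * cm (near S X ω) (Q c d n)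

/-- the whole sum -/
noncomputable def FF (a b : Fin k → ℕ) (c d : Fin l → ℕ) (S : Set ℕ) (X : ℕ → Ω → ℝ)
    (x : ℕ) (ω : Ω) : ℝ :=
  ∑ n ∈ Icc 1 x, W a b n * cm (near S X ω) (Q c d n)

theorem Q_ne_zero {a b : Fin k → ℕ} {c d : Fin l → ℕ} (hG : Good a b c d) {n : ℕ} (hn : 1 ≤ n) :
    Q c d n ≠ 0 := prod_ne_zero_iff.2 fun j _ => Q_ne hG hn j

theorem FF_le (hX : Signs μ X) (a b : Fin k → ℕ) (c d : Fin l → ℕ) (S : Set ℕ) (T : Finset ℕ)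
    (x : ℕ) (ω : Ω) :
    |FF a b c d S X x ω| ≤ ∑ n ∈ Icc 1 x with Ev c d T n, W a b n + |Y1 a b c d S X T x ω| := by
  unfold FF Y1
  rw [← sum_filter_add_sum_filter_not (Icc 1 x) (fun n => Ev c d T n)]
  refine (abs_add_le _ _).trans (add_le_add ?_ le_rfl)
  exact sum_abs_le hX S _ _ (fun n _ => W_nonneg a b n) _ ω

theorem Y1_second (hX : Signs μ X) {a b : Fin k → ℕ} {c d : Fin l → ℕ} (hG : Good a b c d)
    (S : Set ℕ) : ∃ C : ℝ, 0 < C ∧ ∀ r : ℕ, 8 ≤ r → ∀ x : ℕ, 2 ^ r ≤ x → x ≤ 2 ^ (r + 1) →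
    ∀ w : ℕ, 1 ≤ w → ∀ T : Finset ℕ,
    (∀ p ∈ T, p.Prime ∧ p ∈ S ∧ M0 a b c d < p ∧ w < p ∧ p ≤ 2 ^ (r / 8)) →
    (∫ ω, (Y1 a b c d S X T x ω) ^ 2 ∂μ ≤ C * x ^ 2 / w) ∧
    (∀ t : ℝ, 0 < t → μ {ω | t ≤ |Y1 a b c d S X T x ω|} ≤ ENNReal.ofReal (C * x ^ 2 / w / t ^ 2)) ∧
    (∀ ω, |FF a b c d S X x ω| ≤
      C * x * (Real.exp (-(l * ∑ p ∈ T, (1 : ℝ) / p)) + 1 / w) + |Y1 a b c d S X T x ω|) := by
  obtain ⟨C, hC, hb⟩ := block hG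
  refine ⟨C, hC, ?_⟩
  intro r hr x hx1 hx2 w hw T hT
  obtain ⟨h1, h2⟩ := hb r hr x hx1 hx2 w hw T
    (fun p hp => ⟨(hT p hp).1, (hT p hp).2.2.1, (hT p hp).2.2.2.1, (hT p hp).2.2.2.2⟩)
  have h3 : ∫ ω, (Y1 a b c d S X T x ω) ^ 2 ∂μ ≤ C * x ^ 2 / w := by
    refine le_trans ?_ h2
    apply second hX _ _ (fun n _ => W_nonneg a b n) _ _ T (fun p hp => ⟨(hT p hp).1, (hT p hp).2.1⟩)
    · intro n hn
      rw [mem_filter] at hn
      have h4 := hn.2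
      unfold Ev at h4
      push Not at h4
      obtain ⟨p, hp, hp2⟩ := h4
      exact ⟨p, hp, Nat.not_even_iff_odd.1 hp2⟩
    · intro n hn
      rw [mem_filter, mem_Icc] at hn
      exact Q_ne_zero hG hn.1.1
  refine ⟨h3, ?_, ?_⟩
  · intro t ht
    exact chev hX S _ _ (fun n _ => W_nonneg a b n) _ ht h3
  · intro ω
    have h4 := FF_le hX a b c d S T x ω
    linarith

end

end Pool.Agent.U322.NL
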