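import Pool.Agent.U322.NL.As2

/-! Corollaries. -/

set_option autoImplicit false

open Finset MeasureTheory ProbabilityTheory Filter
open scoped Topology
open Classical

namespace Pool.Agent.U322.NL

/-- the correlation sum -/
noncomputable def corr (f : ℕ → ℝ) {k l : ℕ} (a b : Fin k → ℕ) (c d : Fin l → ℕ) (x : ℕ) : ℝ :=
  ∑ n ∈ Icc 1 x, (∏ i, ArithmeticFunction.vonMangoldt (a i * n + b i)) * ∏ j, f (c j * n + d j)

section
variable {Ω : Type} [MeasurableSpace Ω] {μ : Measure Ω} [IsProbabilityMeasure μ]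
  {X : ℕ → Ω → ℝ}

theorem corr_eq {k l : ℕ} {a b : Fin k → ℕ} {c d : Fin l → ℕ} (hG : Good a b c d) (S : Set ℕ)
    (x : ℕ) (ω : Ω) : corr (cm (near S X ω)) a b c d x = FF a b c d S X x ω := by
  unfold corr FF W Q
  apply sum_congr rfl
  intro n hn
  rw [mem_Icc] at hn
  rw [cm_prod _ _ _ fun j _ => Q_ne hG hn.1 j]

theorem all_sys (hX : Signs μ X) (S : Set ℕ) : ∀ᵐ ω ∂μ, ∀ (k l : ℕ) (a b : Fin k → ℕ)
    (c d : Fin l → ℕ), Good a b c d → ∃ C : ℝ, 0 < C ∧ ∀ x : ℕ, 1 ≤ x →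
      |corr (cm (near S X ω)) a b c d x| ≤ C * x * Real.exp (-(l * D S x)) := by
  rw [ae_all_iff]; intro k
  rw [ae_all_iff]; intro l
  rw [ae_all_iff]; intro a
  rw [ae_all_iff]; intro b
  rw [ae_all_iff]; intro c
  rw [ae_all_iff]; intro d
  by_cases hG : Good a b c d
  · filter_upwards [as_one hX hG S] with ω hω _
    obtain ⟨C, hC, h⟩ := hω
    refine ⟨C, hC, fun x hx => ?_⟩
    rw [corr_eq hG]
    exact h x hx
  · exact Filter.Eventually.of_forall fun ω h => absurd h hG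

end

/-- from the bound to the limit -/
theorem lim_of_bound {F : ℕ → ℝ} {l : ℕ} (hl : 1 ≤ l) {S : Set ℕ} (hD : Tendsto (D S) atTop atTop)
    {C : ℝ} (hF : ∀ x : ℕ, 1 ≤ x → |F x| ≤ C * x * Real.exp (-(l * D S x))) :
    Tendsto (fun x : ℕ => F x / x) atTop (𝓝 0) := by
  have h1 : Tendsto (fun x : ℕ => C * Real.exp (-(l * D S x))) atTop (𝓝 0) := by
    have h2 : Tendsto (fun x : ℕ => (l : ℝ) * D S x) atTop atTop :=
      hD.const_mul_atTop (by exact_mod_cast hl)
    have h3 := (Real.tendsto_exp_neg_atTop_nhds_zero.comp h2).const_mul C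
    rw [mul_zero] at h3
    exact h3
  apply squeeze_zero_norm' _ h1
  filter_upwards [eventually_ge_atTop 1] with x hx
  have hx0 : (0 : ℝ) < x := by exact_mod_cast hx
  rw [Real.norm_eq_abs, abs_div, abs_of_pos hx0, div_le_iff₀ hx0]
  have := hF x hx
  linarith

end Pool.Agent.U322.NL
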