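import Pool.Agent.U322.NL.Cor

/-! The rate, and the mean square. -/

set_option autoImplicit false

open Finset MeasureTheory ProbabilityTheory Filter
open scoped Topology
open Classical

namespace Pool.Agent.U322.NL

/-- the sum of `1 / p` over the primes `p ≤ x` of `S` -/
noncomputable def R (S : Set ℕ) (x : ℕ) : ℝ :=
  ∑ p ∈ (Icc 1 x).filter (fun p => p.Prime ∧ p ∈ S), (1 : ℝ) / p

theorem R_le : ∃ C : ℝ, 0 ≤ C ∧ ∀ (S : Set ℕ) (x : ℕ), 16 ≤ x →
    R S x ≤ D S x + Real.log (Real.log (Real.log x)) + C := by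
  obtain ⟨C, hC0, hM⟩ := Y819.MW.mert
  refine ⟨1 / 2 + (Real.log 4 + C), ?_, ?_⟩
  · have : 0 ≤ Real.log 4 := Real.log_nonneg (by norm_num)
    positivity
  intro S x hx
  set r := Nat.log 2 x with hr
  have hr4 : 4 ≤ r := by
    rw [hr]
    have : Nat.log 2 16 = 4 := by decide
    rw [← this]
    exact Nat.log_mono_right hx
  set P1 := (Icc 1 r).filter (fun p => p.Prime ∧ p ∈ S) with hP1
  have hsub : (Icc 1 x).filter (fun p => p.Prime ∧ p ∈ S) ⊆
      (Ioc r x).filter (fun p => p.Prime ∧ p ∈ S) ∪ P1 := by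
    intro p hp
    rw [mem_filter, mem_Icc] at hp
    rw [mem_union, mem_filter, mem_Ioc, hP1, mem_filter, mem_Icc]
    by_cases h : p ≤ r
    · right; exact ⟨⟨hp.1.1, h⟩, hp.2⟩
    · left; exact ⟨⟨by omega, hp.1.2⟩, hp.2⟩
  have h1 : R S x ≤ D S x + ∑ p ∈ P1, (1 : ℝ) / p := by
    refine (sum_le_sum_of_subset_of_nonneg hsub fun _ _ _ => by positivity).trans ?_
    exact union_le (fun p => (1 : ℝ) / p) (fun _ => by positivity) _ _
  have h2 := Y819.MW.sum_upto hM (N := r) (by omega) (P := P1) (fun p hp => by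
    rw [hP1, mem_filter, mem_Icc] at hp
    exact ⟨hp.2.1, hp.1.2⟩)
  -- `log r ≤ 2 log log x`
  have hl2 : 0 < Real.log 2 := Real.log_pos (by norm_num)
  have hl2' : (1 : ℝ) / 2 ≤ Real.log 2 := by
    have := Real.log_two_gt_d9
    linarith
  have hx0 : (0 : ℝ) < x := by
    have : 0 < x := by omega
    exact_mod_cast this
  have hx16 : (16 : ℝ) ≤ x := by exact_mod_cast hx
  have hlx : Real.log 16 ≤ Real.log x := Real.log_le_log (by norm_num) hx16
  have h16 : Real.log 16 = 4 * Real.log 2 := by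
    rw [show (16 : ℝ) = 2 ^ 4 by norm_num, Real.log_pow]
    norm_num
  have hlx2 : (2 : ℝ) ≤ Real.log x := by linarith
  have hrr : (4 : ℝ) ≤ r := by exact_mod_cast hr4
  have hrx : (r : ℝ) * Real.log 2 ≤ Real.log x := by
    have h3 : 2 ^ r ≤ x := Nat.pow_log_le_self 2 (by omega)
    have h4 : (2 : ℝ) ^ r ≤ x := by exact_mod_cast h3
    have h5 := Real.log_le_log (by positivity) h4
    rwa [Real.log_pow] at h5
  have hrx2 : (r : ℝ) ≤ Real.log x ^ 2 := by nlinarith
  have h3 : Real.log r ≤ 2 * Real.log (Real.log x) := by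
    have := Real.log_le_log (by linarith) hrx2
    rwa [Real.log_pow] at this
  have hlr : 0 < Real.log r := Real.log_pos (by linarith)
  have h4 : Real.log r / Real.log 2 ≤ 4 * Real.log (Real.log x) := by
    rw [div_le_iff₀ hl2]
    have : 0 < Real.log (Real.log x) := Real.log_pos (by linarith)
    nlinarith
  have h5 : Real.log (Real.log r / Real.log 2) ≤ Real.log 4 + Real.log (Real.log (Real.log x)) := by
    have h6 : 0 < Real.log (Real.log x) := Real.log_pos (by linarith)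
    rw [← Real.log_mul (by norm_num) h6.ne']
    exact Real.log_le_log (by positivity) h4
  linarith

theorem rate_of_bound {F : ℕ → ℝ} {l : ℕ} {S : Set ℕ} {δ C0 : ℝ}
    (hS : ∀ x : ℕ, 16 ≤ x → δ * Real.log (Real.log x) - C0 ≤ R S x)
    {C : ℝ} (hC : 0 < C) (hF : ∀ x : ℕ, 1 ≤ x → |F x| ≤ C * x * Real.exp (-(l * D S x))) :
    ∃ C' : ℝ, ∀ x : ℕ, 16 ≤ x → |F x| ≤
      C' * x * (Real.log (Real.log x)) ^ l / (Real.log x) ^ (l * δ) := by
  obtain ⟨C1, hC1, hR⟩ := R_le
  refine ⟨C * Real.exp (l * (C0 + C1)), fun x hx => ?_⟩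
  have hx16 : (16 : ℝ) ≤ x := by exact_mod_cast hx
  have hlx : Real.log 16 ≤ Real.log x := Real.log_le_log (by norm_num) hx16
  have h16 : Real.log 16 = 4 * Real.log 2 := by
    rw [show (16 : ℝ) = 2 ^ 4 by norm_num, Real.log_pow]
    norm_num
  have hlx2 : (2 : ℝ) ≤ Real.log x := by
    have := Real.log_two_gt_d9
    linarith
  have hll : 0 < Real.log (Real.log x) := Real.log_pos (by linarith)
  have h1 := hR S x hx
  have h2 := hS x hx
  have hl0 : (0 : ℝ) ≤ l := Nat.cast_nonneg l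
  have h3 : Real.exp (-(l * D S x)) ≤ Real.exp (l * (C0 + C1)) *
      ((Real.log (Real.log x)) ^ l / (Real.log x) ^ (l * δ)) := by
    have e1 : (Real.log (Real.log x)) ^ l = Real.exp (l * Real.log (Real.log (Real.log x))) := by
      rw [mul_comm, Real.exp_mul, Real.exp_log hll, Real.rpow_natCast]
    have e2 : (Real.log x) ^ (l * δ) = Real.exp (l * (δ * Real.log (Real.log x))) := by
      rw [Real.rpow_def_of_pos (by linarith)]
      congr 1
      ring
    rw [e1, e2, ← Real.exp_sub, ← Real.exp_add]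
    apply Real.exp_le_exp.2
    nlinarith
  calc |F x| ≤ C * x * Real.exp (-(l * D S x)) := hF x (by omega)
    _ ≤ C * x * (Real.exp (l * (C0 + C1)) *
      ((Real.log (Real.log x)) ^ l / (Real.log x) ^ (l * δ))) :=
        mul_le_mul_of_nonneg_left h3 (by positivity)
    _ = _ := by ring

section
variable {Ω : Type} [MeasurableSpace Ω] {μ : Measure Ω} [IsProbabilityMeasure μ]
  {X : ℕ → Ω → ℝ}

theorem sq_int (hX : Signs μ X) (S : Set ℕ) (A : Finset ℕ) (w : ℕ → ℝ) (hw : ∀ n ∈ A, 0 ≤ w n)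
    (M : ℕ → ℕ) : Integrable (fun ω => (∑ n ∈ A, w n * cm (near S X ω) (M n)) ^ 2) μ := by
  apply Integrable.of_bound ((sum_meas hX S A w M).pow_const 2).aestronglyMeasurable
    ((∑ n ∈ A, w n) ^ 2)
  filter_upwards with ω
  rw [Real.norm_eq_abs, abs_pow]
  exact pow_le_pow_left₀ (abs_nonneg _) (sum_abs_le hX S A w hw M ω) 2

/-- the mean square -/
theorem mean_square (hX : Signs μ X) {k l : ℕ} {a b : Fin k → ℕ} {c d : Fin l → ℕ}
    (hG : Good a b c d) (hl : 1 ≤ l) {S : Set ℕ}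
    (hS : ¬ Summable (Set.indicator {p : ℕ | p.Prime ∧ p ∈ S} fun p => (1 : ℝ) / p)) :
    Tendsto (fun x : ℕ => ∫ ω, (corr (cm (near S X ω)) a b c d x / x) ^ 2 ∂μ) atTop (𝓝 0) := by
  obtain ⟨C, hC, hY⟩ := Y1_second (μ := μ) hX hG S
  have hf0 : ∀ n, 0 ≤ Set.indicator {p : ℕ | p.Prime ∧ p ∈ S} (fun p => (1 : ℝ) / p) n :=
    fun n => Set.indicator_nonneg (fun p _ => by positivity) n
  have hdiv := (not_summable_iff_tendsto_nat_atTop_of_nonneg hf0).1 hS
  rw [Metric.tendsto_atTop]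
  intro ε hε
  obtain ⟨w, hw⟩ := exists_nat_gt ((8 * C ^ 2 + 2 * C) / ε)
  have hw0 : (0 : ℝ) < w := lt_trans (by positivity) hw
  have hw1 : 1 ≤ w := by
    have : 0 < w := by exact_mod_cast hw0
    omega
  have hw1' : (1 : ℝ) ≤ w := by exact_mod_cast hw1
  set M := max w (M0 a b c d) with hM
  obtain ⟨N, hN⟩ := (tendsto_atTop_atTop.1 hdiv) (M + 1 + Real.log w)
  refine ⟨2 ^ (8 * (N + 1)), fun x hx => ?_⟩
  set r := Nat.log 2 x with hr
  have hx1 : 2 ^ r ≤ x := Nat.pow_log_le_self 2 (by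
    have := Nat.one_le_two_pow (n := 8 * (N + 1))
    omega)
  have hx2 : x ≤ 2 ^ (r + 1) := (Nat.lt_pow_succ_log_self (by norm_num) x).le
  have hrN : 8 * (N + 1) ≤ r := by
    rw [hr, ← Nat.log_pow (b := 2) (by norm_num) (8 * (N + 1))]
    exact Nat.log_mono_right hx
  have hr8 : 8 ≤ r := by omega
  have hN8 : N ≤ 2 ^ (r / 8) + 1 := by
    have h1 : N + 1 ≤ r / 8 := by omega
    have h2 : r / 8 < 2 ^ (r / 8) := Nat.lt_two_pow_self
    omega
  have hx0 : (0 : ℝ) < x := by
    have : 0 < 2 ^ r := by positivity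
    exact_mod_cast (by omega : 0 < x)
  set T : Finset ℕ := {p ∈ range (2 ^ (r / 8) + 1) | p.Prime ∧ p ∈ S ∧ M < p} with hT
  have hTm : ∀ p ∈ T, p.Prime ∧ p ∈ S ∧ M0 a b c d < p ∧ w < p ∧ p ≤ 2 ^ (r / 8) := by
    intro p hp
    rw [hT, mem_filter, mem_range] at hp
    have h1 : w ≤ M := le_max_left _ _
    have h2 : M0 a b c d ≤ M := le_max_right _ _
    exact ⟨hp.2.1, hp.2.2.1, by omega, by omega, by omega⟩
  obtain ⟨h1, _, h3⟩ := hY r hr8 x hx1 hx2 w hw1 T hTm
  -- the sum over `T` is large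
  have hTs : Real.log w ≤ ∑ p ∈ T, (1 : ℝ) / p := by
    have h4 := hN (2 ^ (r / 8) + 1) hN8
    have h5 : ∑ i ∈ range (2 ^ (r / 8) + 1),
        Set.indicator {p : ℕ | p.Prime ∧ p ∈ S} (fun p => (1 : ℝ) / p) i ≤
        ∑ p ∈ T, (1 : ℝ) / p + (M + 1) := by
      have h6 : ∑ i ∈ range (2 ^ (r / 8) + 1),
          Set.indicator {p : ℕ | p.Prime ∧ p ∈ S} (fun p => (1 : ℝ) / p) i =
          ∑ p ∈ (range (2 ^ (r / 8) + 1)).filter (fun p => p.Prime ∧ p ∈ S), (1 : ℝ) / p := by
        rw [sum_filter]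
        apply sum_congr rfl
        intro p _
        by_cases hp : p.Prime ∧ p ∈ S
        · rw [if_pos hp, Set.indicator_of_mem]
          exact hp
        · rw [if_neg hp, Set.indicator_of_notMem]
          exact hp
      rw [h6]
      have h7 : (range (2 ^ (r / 8) + 1)).filter (fun p => p.Prime ∧ p ∈ S) ⊆
          T ∪ (range (M + 1)).filter Nat.Prime := by
        intro p hp
        rw [mem_filter] at hp
        rw [mem_union, hT, mem_filter, mem_filter]
        by_cases h : p ≤ M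
        · right; exact ⟨mem_range.2 (Nat.lt_succ_of_le h), hp.2.1⟩
        · left; exact ⟨hp.1, hp.2.1, hp.2.2, by omega⟩
      refine (sum_le_sum_of_subset_of_nonneg h7 fun _ _ _ => by positivity).trans ?_
      refine (union_le (fun p => (1 : ℝ) / p) (fun _ => by positivity) _ _).trans ?_
      have h8 : ∑ p ∈ (range (M + 1)).filter Nat.Prime, (1 : ℝ) / p ≤ M + 1 := by
        calc ∑ p ∈ (range (M + 1)).filter Nat.Prime, (1 : ℝ) / p ≤
            ∑ _p ∈ (range (M + 1)).filter Nat.Prime, (1 : ℝ) := by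
              apply sum_le_sum
              intro p hp
              rw [mem_filter] at hp
              have : (1 : ℝ) ≤ p := by exact_mod_cast hp.2.one_lt.le
              rw [div_le_one (by linarith)]
              exact this
          _ = #((range (M + 1)).filter Nat.Prime) := by rw [sum_const, nsmul_eq_mul, mul_one]
          _ ≤ M + 1 := by
              have : #((range (M + 1)).filter Nat.Prime) ≤ M + 1 := by
                refine (card_filter_le _ _).trans ?_
                rw [card_range]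
              exact_mod_cast this
      linarith
    push_cast at h4
    linarith
  have hE : Real.exp (-(l * ∑ p ∈ T, (1 : ℝ) / p)) ≤ 1 / w := by
    have e : (1 : ℝ) / w = Real.exp (-(Real.log w)) := by
      rw [Real.exp_neg, Real.exp_log hw0, one_div]
    rw [e]
    apply Real.exp_le_exp.2
    have hl1 : (1 : ℝ) ≤ l := by exact_mod_cast hl
    have h4 : 0 ≤ ∑ p ∈ T, (1 : ℝ) / p := sum_nonneg fun _ _ => by positivity
    nlinarith
  -- the mean square
  have hYint : Integrable (fun ω => (Y1 a b c d S X T x ω) ^ 2) μ :=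
    sq_int hX S _ _ (fun n _ => W_nonneg a b n) _
  have hpt : ∀ ω, (corr (cm (near S X ω)) a b c d x / x) ^ 2 ≤
      2 * (2 * C / w) ^ 2 + 2 / x ^ 2 * (Y1 a b c d S X T x ω) ^ 2 := by
    intro ω
    rw [corr_eq hG]
    have h4 := h3 ω
    have h5 : C * x * (Real.exp (-(l * ∑ p ∈ T, (1 : ℝ) / p)) + 1 / w) ≤ x * (2 * C / w) := by
      calc C * x * (Real.exp (-(l * ∑ p ∈ T, (1 : ℝ) / p)) + 1 / w) ≤
          C * x * (1 / w + 1 / w) := by
            apply mul_le_mul_of_nonneg_left _ (by positivity)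
            linarith
        _ = x * (2 * C / w) := by ring
    set Y := Y1 a b c d S X T x ω
    set G := FF a b c d S X x ω
    have h6 : |G / x| ≤ 2 * C / w + |Y| / x := by
      rw [abs_div, abs_of_pos hx0, div_le_iff₀ hx0, add_mul, div_mul_cancel₀ _ hx0.ne']
      linarith
    have h7 : (G / x) ^ 2 ≤ (2 * C / w + |Y| / x) ^ 2 := by
      rw [← sq_abs (G / x)]
      exact pow_le_pow_left₀ (abs_nonneg _) h6 2
    refine h7.trans ?_
    have h8 : 2 / x ^ 2 * Y ^ 2 = 2 * (|Y| / x) ^ 2 := by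
      rw [div_pow, sq_abs]; ring
    rw [h8]
    nlinarith [sq_nonneg (2 * C / w - |Y| / x)]
  have hint : ∫ ω, (corr (cm (near S X ω)) a b c d x / x) ^ 2 ∂μ ≤
      2 * (2 * C / w) ^ 2 + 2 / x ^ 2 * (C * x ^ 2 / w) := by
    calc ∫ ω, (corr (cm (near S X ω)) a b c d x / x) ^ 2 ∂μ ≤
        ∫ ω, (2 * (2 * C / w) ^ 2 + 2 / x ^ 2 * (Y1 a b c d S X T x ω) ^ 2) ∂μ := by
          apply integral_mono_of_nonneg
          · exact Filter.Eventually.of_forall fun ω => sq_nonneg _
          · exact (integrable_const _).add (hYint.const_mul _)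
          · exact Filter.Eventually.of_forall hpt
      _ = 2 * (2 * C / w) ^ 2 + 2 / x ^ 2 * ∫ ω, (Y1 a b c d S X T x ω) ^ 2 ∂μ := by
          rw [integral_add (integrable_const _) (hYint.const_mul _), integral_const,
            integral_const_mul]
          simp
      _ ≤ _ := by
          have : (0 : ℝ) ≤ 2 / x ^ 2 := by positivity
          have := mul_le_mul_of_nonneg_left h1 this
          linarith
  have h0 : 0 ≤ ∫ ω, (corr (cm (near S X ω)) a b c d x / x) ^ 2 ∂μ :=
    integral_nonneg fun ω => sq_nonneg _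
  rw [Real.dist_eq, sub_zero, abs_of_nonneg h0]
  refine lt_of_le_of_lt hint ?_
  have e1 : 2 * (2 * C / w) ^ 2 + 2 / (x : ℝ) ^ 2 * (C * x ^ 2 / w) =
      8 * C ^ 2 / w ^ 2 + 2 * C / w := by
    field_simp
    ring
  rw [e1]
  have h9 : 8 * C ^ 2 / (w : ℝ) ^ 2 ≤ 8 * C ^ 2 / w := by
    apply div_le_div_of_nonneg_left (by positivity) hw0
    nlinarith
  have h10 : (8 * C ^ 2 + 2 * C) / w < ε := by
    rw [div_lt_iff₀ hε] at hw
    rw [div_lt_iff₀ hw0]
    linarith
  rw [add_div] at h10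
  linarith

end

end Pool.Agent.U322.NL
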