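import Pool.Agent.U322.NL.Root

/-! Auxiliary estimates. -/

set_option autoImplicit false

open Finset
open Classical

namespace Pool.Agent.U322.NL

theorem mert_up : ∃ C : ℝ, 0 ≤ C ∧ ∀ r : ℕ, 1 ≤ r → ∀ T : Finset ℕ,
    (∀ p ∈ T, p.Prime ∧ p ≤ 2 ^ r) → ∑ p ∈ T, (1 : ℝ) / p ≤ Real.log r + C := by
  obtain ⟨C, hC0, hM⟩ := Y819.MW.mert
  refine ⟨1 / 2 + C, by positivity, fun r hr T hT => ?_⟩
  have hN : 2 ≤ 2 ^ r := by
    calc 2 = 2 ^ 1 := rfl
      _ ≤ 2 ^ r := Nat.pow_le_pow_right (by norm_num) hr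
  have h := Y819.MW.sum_upto hM hN hT
  have hl2 : 0 < Real.log 2 := Real.log_pos (by norm_num)
  have e : Real.log ((2 ^ r : ℕ) : ℝ) / Real.log 2 = r := by
    push_cast
    rw [Real.log_pow]
    field_simp
  rw [e] at h
  linarith

theorem mert_lo (M : ℕ) : ∃ C : ℝ, 0 ≤ C ∧ ∀ r : ℕ, 8 ≤ r → ∀ p0 : ℕ,
    Real.log r - C ≤ ∑ p ∈ {p ∈ range (2 ^ (r / 8) + 1) | p.Prime ∧ M < p ∧ p ≠ p0}, (1 : ℝ) / p := by
  obtain ⟨C, hC0, hC⟩ := Pool.Agent.Helper923.HMertens.mertens_ratio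
  set M' := max M 2 with hM'
  have hM2 : 2 ≤ M' := le_max_right _ _
  have hMl : M ≤ M' := le_max_left _ _
  have hMr : (2 : ℝ) ≤ M' := by exact_mod_cast hM2
  have hl2 : 0 < Real.log 2 := Real.log_pos (by norm_num)
  have hlM : 0 < Real.log M' := Real.log_pos (by linarith)
  refine ⟨|Real.log (16 * Real.log M' / Real.log 2)| + C / Real.log M' + 1 / 2 +
    Real.log (8 * M' + 8), ?_, ?_⟩
  · have : 0 ≤ Real.log (8 * M' + 8) := Real.log_nonneg (by linarith)
    positivity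
  intro r hr p0
  have hr0 : (0 : ℝ) < r := by
    have : 0 < r := by omega
    exact_mod_cast this
  have hlast : 0 ≤ Real.log (8 * (M' : ℝ) + 8) := Real.log_nonneg (by linarith)
  by_cases hcase : M' ≤ 2 ^ (r / 8)
  · set z := 2 ^ (r / 8) with hz
    have h1 := (abs_le.1 (hC M' z hM2 hcase)).1
    have hsub : ((Ioc M' z).filter Nat.Prime).erase p0 ⊆
        {p ∈ range (z + 1) | p.Prime ∧ M < p ∧ p ≠ p0} := by
      intro p hp
      rw [mem_erase, mem_filter, mem_Ioc] at hp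
      rw [mem_filter, mem_range]
      exact ⟨by omega, hp.2.2, by omega, hp.1⟩
    have h2 := sum_le_sum_of_subset_of_nonneg (f := fun p : ℕ => (1 : ℝ) / p) hsub
      (fun _ _ _ => by positivity)
    have h3 : ∑ p ∈ (Ioc M' z).filter Nat.Prime, (1 : ℝ) / p ≤
        ∑ p ∈ ((Ioc M' z).filter Nat.Prime).erase p0, (1 : ℝ) / p + 1 / 2 := by
      by_cases hmem : p0 ∈ (Ioc M' z).filter Nat.Prime
      · rw [← add_sum_erase _ _ hmem]
        have : (2 : ℝ) ≤ p0 := by
          rw [mem_filter] at hmem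
          exact_mod_cast hmem.2.two_le
        have : (1 : ℝ) / p0 ≤ 1 / 2 := by
          apply one_div_le_one_div_of_le (by norm_num) this
        linarith
      · rw [erase_eq_of_notMem hmem]
        linarith
    have hlz : Real.log z = ((r / 8 : ℕ) : ℝ) * Real.log 2 := by
      rw [hz]; push_cast; rw [Real.log_pow]
    have hr8 : (r : ℝ) / 16 ≤ ((r / 8 : ℕ) : ℝ) := by
      have : r ≤ 16 * (r / 8) := by omega
      have h5 : (r : ℝ) ≤ 16 * ((r / 8 : ℕ) : ℝ) := by exact_mod_cast this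
      linarith
    have hlz2 : (r : ℝ) / 16 * Real.log 2 ≤ Real.log z := by
      rw [hlz]; exact mul_le_mul_of_nonneg_right hr8 hl2.le
    have h4 : Real.log r - Real.log (16 * Real.log M' / Real.log 2) ≤
        Real.log (Real.log z / Real.log M') := by
      rw [← Real.log_div hr0.ne' (by positivity)]
      apply Real.log_le_log (by positivity)
      rw [le_div_iff₀ hlM]
      refine le_trans (le_of_eq ?_) hlz2
      field_simp
    have h5 := le_abs_self (Real.log (16 * Real.log M' / Real.log 2))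
    linarith
  · push Not at hcase
    have h1 : r ≤ 8 * M' + 8 := by
      have h2 : r / 8 < 2 ^ (r / 8) := Nat.lt_two_pow_self
      omega
    have h2 : Real.log r ≤ Real.log (8 * M' + 8) := by
      apply Real.log_le_log hr0
      exact_mod_cast h1
    have h3 : 0 ≤ ∑ p ∈ {p ∈ range (2 ^ (r / 8) + 1) | p.Prime ∧ M < p ∧ p ≠ p0}, (1 : ℝ) / p :=
      sum_nonneg fun _ _ => by positivity
    have h4 := abs_nonneg (Real.log (16 * Real.log M' / Real.log 2))
    have h5 : 0 ≤ C / Real.log M' := by positivity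
    linarith

/-- proper prime powers -/
def PPow (m : ℕ) : Prop := ∃ p e : ℕ, p.Prime ∧ 2 ≤ e ∧ m = p ^ e

theorem ppow_card (M : ℕ) :
    #{m ∈ range (M + 1) | PPow m} ≤ (Nat.sqrt M + 1) * (Nat.log 2 M + 1) := by
  have hsub : {m ∈ range (M + 1) | PPow m} ⊆
      (range (Nat.sqrt M + 1) ×ˢ range (Nat.log 2 M + 1)).image fun x => x.1 ^ x.2 := by
    intro m hm
    rw [mem_filter, mem_range] at hm
    obtain ⟨h1, p, e, hp, he, rfl⟩ := hm
    rw [mem_image]
    refine ⟨(p, e), ?_, rfl⟩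
    have hpM : p ^ e ≤ M := by omega
    rw [mem_product, mem_range, mem_range]
    constructor
    · have : p ^ 2 ≤ M := (Nat.pow_le_pow_right hp.pos he).trans hpM
      have := Nat.le_sqrt'.2 this
      change p < _
      omega
    · have h2 : 2 ^ e ≤ M := (Nat.pow_le_pow_left hp.two_le e).trans hpM
      have h3 : M ≠ 0 := by
        have := Nat.one_le_two_pow (n := e)
        omega
      have := (Nat.le_log_iff_pow_le (by norm_num) h3).2 h2
      change e < _
      omega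
  refine (card_le_card hsub).trans (card_image_le.trans ?_)
  rw [card_product, card_range, card_range]

theorem pow_le_two (m : ℕ) : ∃ C : ℝ, 0 < C ∧ ∀ r : ℕ, (r : ℝ) ^ m ≤ C * 2 ^ ((r : ℝ) / 8) := by
  have hl2 : 0 < Real.log 2 := Real.log_pos (by norm_num)
  refine ⟨m.factorial * (8 / Real.log 2) ^ m, by positivity, fun r => ?_⟩
  have h := Real.pow_div_factorial_le_exp _ (show 0 ≤ (r : ℝ) / 8 * Real.log 2 by positivity) m
  have e : (2 : ℝ) ^ ((r : ℝ) / 8) = Real.exp ((r : ℝ) / 8 * Real.log 2) := by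
    rw [Real.rpow_def_of_pos (by norm_num), mul_comm]
  rw [e]
  calc (r : ℝ) ^ m = m.factorial * (8 / Real.log 2) ^ m *
        (((r : ℝ) / 8 * Real.log 2) ^ m / m.factorial) := by
        rw [div_pow, mul_pow, div_pow]
        field_simp
    _ ≤ _ := mul_le_mul_of_nonneg_left h (by positivity)

theorem low_N {r N : ℕ} (h : 2 ^ (5 * r) ≤ N ^ 8) : (2 : ℝ) ^ ((r : ℝ) / 2) * 2 ^ ((r : ℝ) / 8) ≤ N := by
  rw [← Real.rpow_add (by norm_num)]
  have h1 : ((2 : ℝ) ^ ((r : ℝ) / 2 + (r : ℝ) / 8)) ^ 8 ≤ (N : ℝ) ^ 8 := by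
    rw [← Real.rpow_natCast, ← Real.rpow_mul (by norm_num)]
    have e : ((r : ℝ) / 2 + (r : ℝ) / 8) * ((8 : ℕ) : ℝ) = ((5 * r : ℕ) : ℝ) := by push_cast; ring
    rw [e, Real.rpow_natCast]
    exact_mod_cast h
  exact le_of_pow_le_pow_left₀ (by norm_num) (by positivity) h1

theorem sqrt_two_pow (s : ℕ) : Nat.sqrt (2 ^ s) ≤ 2 ^ (s / 2 + 1) := by
  have h1 : 2 ^ s < (2 ^ (s / 2 + 1)) ^ 2 := by
    rw [← pow_mul]
    apply Nat.pow_lt_pow_right (by norm_num)
    omega
  exact (Nat.sqrt_lt'.2 h1).le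

end Pool.Agent.U322.NL
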