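import Pool.Agent.U322.NL.Rand

/-! Independent fair signs exist. -/

set_option autoImplicit false

open Finset MeasureTheory ProbabilityTheory

namespace Pool.Agent.U322.NL

/-- the fair measure on the two-point set -/
noncomputable def fair : Measure Bool :=
  (2⁻¹ : ENNReal) • Measure.dirac true + (2⁻¹ : ENNReal) • Measure.dirac false

instance : IsProbabilityMeasure fair := by
  constructor
  unfold fair
  simp [ENNReal.inv_two_add_inv_two]

/-- the sign of a boolean -/
noncomputable def sg (t : Bool) : ℝ := if t then 1 else -1

theorem exists_signs : ∃ (μ : Measure (ℕ → Bool)) (_ : IsProbabilityMeasure μ)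
    (X : ℕ → (ℕ → Bool) → ℝ), Signs μ X := by
  refine ⟨Measure.infinitePi fun _ => fair, inferInstance, fun p ω => sg (ω p), ?_, ?_, ?_, ?_⟩
  · intro p
    exact (measurable_of_countable sg).comp (measurable_pi_apply p)
  · exact iIndepFun_infinitePi (X := fun _ => sg) (fun _ => measurable_of_countable sg)
  · intro p ω
    unfold sg
    split_ifs
    · left; rfl
    · right; rfl
  · intro p
    have h := (measurePreserving_eval_infinitePi (fun _ : ℕ => fair) p)
    have h2 : ∫ ω : ℕ → Bool, sg (ω p) ∂(Measure.infinitePi fun _ => fair) =
        ∫ t, sg t ∂fair := by
      have h3 := integral_map (μ := Measure.infinitePi fun _ : ℕ => fair) (f := sg) h.measurable.aemeasurable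
        (measurable_of_countable sg).aestronglyMeasurable
      rw [h.map_eq] at h3
      exact h3.symm
    rw [h2]
    unfold fair
    rw [integral_add_measure (by apply Integrable.smul_measure; exact integrable_dirac (by simp); simp) (by apply Integrable.smul_measure; exact integrable_dirac (by simp); simp), integral_smul_measure, integral_smul_measure, integral_dirac, integral_dirac]
    simp [sg]

end Pool.Agent.U322.NL
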