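import Pool.Agent.Y819.MW.F

/-! Roots of linear forms modulo primes. -/

set_option autoImplicit false

open Finset
open Classical

namespace Pool.Agent.U322.NL

theorem root_card {p a b : ℕ} (hp : p.Prime) (ha : ¬ p ∣ a) :
    #{c ∈ range p | p ∣ a * c + b} = 1 := by
  have : Fact p.Prime := ⟨hp⟩
  have ha0 : (a : ZMod p) ≠ 0 := by
    rw [Ne, ZMod.natCast_eq_zero_iff]; exact ha
  set x : ZMod p := -(b : ZMod p) * (a : ZMod p)⁻¹ with hx
  rw [card_eq_one]
  refine ⟨x.val, ?_⟩
  ext c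
  rw [mem_filter, mem_range, mem_singleton]
  have key : p ∣ a * c + b ↔ (c : ZMod p) = x := by
    rw [← ZMod.natCast_eq_zero_iff]
    push_cast
    constructor
    · intro h
      have h1 : (a : ZMod p) * c = -b := by linear_combination h
      rw [hx, ← h1]
      field_simp
    · intro h
      rw [h, hx]
      field_simp
      ring
  constructor
  · rintro ⟨h1, h2⟩
    rw [key] at h2
    rw [← h2, ZMod.val_natCast_of_lt h1]
  · intro h
    refine ⟨?_, ?_⟩
    · rw [h]; exact ZMod.val_lt x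
    · rw [key, h, ZMod.natCast_zmod_val]

theorem roots_card {ι : Type} (I : Finset ι) (a b : ι → ℕ) {p : ℕ} (hp : p.Prime)
    (ha : ∀ i ∈ I, ¬ p ∣ a i)
    (hd : ∀ i ∈ I, ∀ j ∈ I, i ≠ j → ¬ (p : ℤ) ∣ (a i : ℤ) * b j - a j * b i) :
    #{c ∈ range p | ∃ i ∈ I, p ∣ a i * c + b i} = #I := by
  have e : {c ∈ range p | ∃ i ∈ I, p ∣ a i * c + b i} =
      I.biUnion fun i => {c ∈ range p | p ∣ a i * c + b i} := by
    ext c
    simp only [mem_filter, mem_biUnion]
    constructor
    · rintro ⟨h1, i, hi, h2⟩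
      exact ⟨i, hi, h1, h2⟩
    · rintro ⟨i, hi, h1, h2⟩
      exact ⟨h1, i, hi, h2⟩
  rw [e, card_biUnion]
  · rw [sum_congr rfl fun i hi => root_card hp (ha i hi), sum_const, smul_eq_mul, mul_one]
  · intro i hi j hj hij
    rw [Function.onFun, disjoint_left]
    intro c hc hc'
    rw [mem_filter] at hc hc'
    apply hd i hi j hj hij
    have h1 : (p : ℤ) ∣ (a i : ℤ) * c + b i := by exact_mod_cast hc.2
    have h2 : (p : ℤ) ∣ (a j : ℤ) * c + b j := by exact_mod_cast hc'.2
    have h3 := dvd_sub (Dvd.dvd.mul_left h2 (a i : ℤ)) (Dvd.dvd.mul_left h1 (a j : ℤ))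
    have e3 : (a i : ℤ) * (a j * c + b j) - a j * (a i * c + b i) = a i * b j - a j * b i := by ring
    rwa [e3] at h3

/-- a bound for the bad primes of a system of forms -/
def bd {ι : Type} [Fintype ι] (a b : ι → ℕ) : ℕ := 2 + ∑ i, a i + ∑ i, ∑ j, a i * b j

theorem a_le_bd {ι : Type} [Fintype ι] (a b : ι → ℕ) (i : ι) : a i ≤ bd a b := by
  unfold bd
  have := single_le_sum (f := a) (fun _ _ => Nat.zero_le _) (mem_univ i)
  omega

theorem ab_le_bd {ι : Type} [Fintype ι] (a b : ι → ℕ) (i j : ι) : a i * b j ≤ bd a b := by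
  unfold bd
  have h1 := single_le_sum (f := fun j => a i * b j) (fun _ _ => Nat.zero_le _) (mem_univ j)
  have h2 := single_le_sum (f := fun i => ∑ j, a i * b j) (fun _ _ => Nat.zero_le _) (mem_univ i)
  beta_reduce at h1 h2
  omega

theorem not_dvd_a {ι : Type} [Fintype ι] {a b : ι → ℕ} (ha : ∀ i, 1 ≤ a i) {p : ℕ}
    (hp : bd a b < p) (i : ι) : ¬ p ∣ a i := by
  intro h
  have h1 := Nat.le_of_dvd (by have := ha i; omega) h
  have h2 := a_le_bd a b i
  omega

theorem not_dvd_det {ι : Type} [Fintype ι] {a b : ι → ℕ} {p : ℕ}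
    (hp : bd a b < p) {i j : ι} (hij : a i * b j ≠ a j * b i) :
    ¬ (p : ℤ) ∣ (a i : ℤ) * b j - a j * b i := by
  intro h
  have h1 := ab_le_bd a b i j
  have h2 := ab_le_bd a b j i
  have h0 : (a i : ℤ) * b j - a j * b i ≠ 0 := by
    intro h3
    apply hij
    have : (a i : ℤ) * b j = a j * b i := by linarith
    exact_mod_cast this
  have h3 := Int.le_of_dvd (abs_pos.2 h0) ((dvd_abs _ _).2 h)
  have h4 : |(a i : ℤ) * b j - a j * b i| ≤ bd a b := by
    rw [abs_le]
    have h5 : (0 : ℤ) ≤ (a i : ℤ) * b j := by positivity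
    have h6 : (0 : ℤ) ≤ (a j : ℤ) * b i := by positivity
    have h7 : (a i : ℤ) * b j ≤ bd a b := by exact_mod_cast h1
    have h8 : (a j : ℤ) * b i ≤ bd a b := by exact_mod_cast h2
    constructor <;> linarith
  have h9 : (bd a b : ℤ) < p := by exact_mod_cast hp
  linarith

end Pool.Agent.U322.NL
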