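import Pool.Agent.U322.NL.Wt

/-! The sieve bound for products of von Mangoldt functions: the main estimate. -/

set_option autoImplicit false

open Finset
open Classical

namespace Pool.Agent.U322.NL

open ArithmeticFunction

variable {k l : ℕ}

theorem form_le {a b : Fin k → ℕ} {c d : Fin l → ℕ} (hG : Good a b c d) {r n : ℕ}
    (hn : n ≤ 2 ^ (r + 2)) (i : Fin k) : a i * n + b i ≤ 2 ^ (r + 3 + M0 a b c d) := by
  have h1 := a_le_M0 a b c d i
  have h2 := b_le_M0 hG i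
  have h3 : M0 a b c d ≤ 2 ^ M0 a b c d := Nat.lt_two_pow_self.le
  have h4 : n + 1 ≤ 2 ^ (r + 3) := by
    have e : 2 ^ (r + 3) = 2 ^ (r + 2) + 2 ^ (r + 2) := by ring
    have := Nat.one_le_two_pow (n := r + 2)
    omega
  calc a i * n + b i ≤ M0 a b c d * n + M0 a b c d := add_le_add (Nat.mul_le_mul_right n h1) h2
    _ = (n + 1) * M0 a b c d := by ring
    _ ≤ 2 ^ (r + 3) * 2 ^ M0 a b c d := Nat.mul_le_mul h4 h3
    _ = 2 ^ (r + 3 + M0 a b c d) := (pow_add 2 (r + 3) _).symm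

theorem lam_le {m s : ℕ} (h : m ≤ 2 ^ s) : (vonMangoldt m : ℝ) ≤ s := by
  by_cases hm : m = 0
  · rw [hm]; simp
  · refine vonMangoldt_le_log.trans ?_
    have hm0 : (0 : ℝ) < m := by exact_mod_cast Nat.pos_of_ne_zero hm
    have h1 : Real.log m ≤ Real.log ((2 : ℝ) ^ s) := by
      apply Real.log_le_log hm0
      exact_mod_cast h
    rw [Real.log_pow] at h1
    have h2 : Real.log 2 ≤ 1 := by
      have := Real.log_two_lt_d9
      linarith
    have h3 : (0 : ℝ) ≤ s := Nat.cast_nonneg s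
    nlinarith

theorem W_le {a b : Fin k → ℕ} {c d : Fin l → ℕ} (hG : Good a b c d) {r n : ℕ} (hr : 1 ≤ r)
    (hn : n ≤ 2 ^ (r + 2)) : W a b n ≤ ((4 + M0 a b c d : ℕ) * r : ℝ) ^ k := by
  unfold W
  calc ∏ i, vonMangoldt (a i * n + b i) ≤ ∏ _i : Fin k, ((4 + M0 a b c d : ℕ) * r : ℝ) := by
        apply prod_le_prod (fun _ _ => vonMangoldt_nonneg)
        intro i _
        refine (lam_le (form_le hG hn i)).trans ?_
        have : r + 3 + M0 a b c d ≤ (4 + M0 a b c d) * r := by nlinarith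
        exact_mod_cast this
    _ = _ := by rw [prod_const, card_univ, Fintype.card_fin]

theorem bad_real (M r : ℕ) (hr : 8 ≤ r) :
    (((2 ^ (r / 8) + 1) + (Nat.sqrt (2 ^ (r + 3 + M)) + 1) * (Nat.log 2 (2 ^ (r + 3 + M)) + 1) : ℕ) : ℝ)
      ≤ (2 + 4 * 2 ^ (((3 + M : ℕ) : ℝ) / 2) * (5 + M)) * (r * 2 ^ ((r : ℝ) / 2)) := by
  set s := r + 3 + M with hs
  have hr0 : (8 : ℝ) ≤ r := by exact_mod_cast hr
  have e0 : (1 : ℝ) ≤ 2 ^ ((r : ℝ) / 2) := Real.one_le_rpow (by norm_num) (by positivity)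
  have h1 : ((2 ^ (r / 8) + 1 : ℕ) : ℝ) ≤ 2 * (r * 2 ^ ((r : ℝ) / 2)) := by
    have e1 : ((2 : ℝ) ^ (r / 8)) ≤ 2 ^ ((r : ℝ) / 2) := by
      rw [← Real.rpow_natCast]
      apply Real.rpow_le_rpow_of_exponent_le (by norm_num)
      have : ((r / 8 : ℕ) : ℝ) ≤ (r : ℝ) / (8 : ℕ) := Nat.cast_div_le
      have h8 : (0 : ℝ) ≤ r := by linarith
      push_cast at this
      linarith
    push_cast
    nlinarith
  have h2 : ((Nat.sqrt (2 ^ s) + 1 : ℕ) : ℝ) ≤ 4 * 2 ^ (((3 + M : ℕ) : ℝ) / 2) * 2 ^ ((r : ℝ) / 2) := by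
    have h3 : Nat.sqrt (2 ^ s) + 1 ≤ 4 * 2 ^ (s / 2) := by
      have := sqrt_two_pow s
      have e : 2 ^ (s / 2 + 1) = 2 * 2 ^ (s / 2) := by ring
      have := Nat.one_le_two_pow (n := s / 2)
      omega
    have h4 : ((2 : ℝ) ^ (s / 2)) ≤ 2 ^ (((3 + M : ℕ) : ℝ) / 2) * 2 ^ ((r : ℝ) / 2) := by
      rw [← Real.rpow_natCast, ← Real.rpow_add (by norm_num)]
      apply Real.rpow_le_rpow_of_exponent_le (by norm_num)
      have : ((s / 2 : ℕ) : ℝ) ≤ (s : ℝ) / (2 : ℕ) := Nat.cast_div_le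
      refine this.trans (le_of_eq ?_)
      rw [hs]; push_cast; ring
    have h5 : ((Nat.sqrt (2 ^ s) + 1 : ℕ) : ℝ) ≤ 4 * (2 : ℝ) ^ (s / 2) := by exact_mod_cast h3
    nlinarith
  have h3 : ((Nat.log 2 (2 ^ s) + 1 : ℕ) : ℝ) ≤ (5 + M) * r := by
    rw [Nat.log_pow (by norm_num), hs]
    push_cast
    have : (0 : ℝ) ≤ M := Nat.cast_nonneg M
    nlinarith
  have h4 : (((Nat.sqrt (2 ^ s) + 1) * (Nat.log 2 (2 ^ s) + 1) : ℕ) : ℝ) ≤
      4 * 2 ^ (((3 + M : ℕ) : ℝ) / 2) * (5 + M) * (r * 2 ^ ((r : ℝ) / 2)) := by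
    rw [Nat.cast_mul]
    calc ((Nat.sqrt (2 ^ s) + 1 : ℕ) : ℝ) * ((Nat.log 2 (2 ^ s) + 1 : ℕ) : ℝ) ≤
        (4 * 2 ^ (((3 + M : ℕ) : ℝ) / 2) * 2 ^ ((r : ℝ) / 2)) * ((5 + M) * r) :=
          mul_le_mul h2 h3 (by positivity) (by positivity)
      _ = _ := by ring
  rw [Nat.cast_add]
  linarith

/-- the pointwise bound -/
theorem pointwise {a b : Fin k → ℕ} {c d : Fin l → ℕ} {V : ℝ} (hV : 0 ≤ V) {z n : ℕ}
    (hW : W a b n ≤ V) (T P : Finset ℕ) (hP : ∀ p ∈ P, p.Prime ∧ p ≤ z) (B : Prop)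
    (hB : ¬ B → ∀ i, ¬ (a i * n + b i ≤ z ∨ PPow (a i * n + b i))) :
    (if ∀ p ∈ T, ¬ p ∣ Q c d n then W a b n else 0) ≤
      V * Y819.MW.wt (Om a b c d T) (fun _ => 1) P n + V * (if B then 1 else 0) := by
  have hwt : 0 ≤ Y819.MW.wt (Om a b c d T) (fun _ => 1) P n :=
    Y819.MW.wt_nonneg (fun _ _ => ⟨zero_le_one, le_rfl⟩) n
  have h0 : 0 ≤ V * Y819.MW.wt (Om a b c d T) (fun _ => 1) P n := mul_nonneg hV hwt
  have h1 : 0 ≤ V * (if B then (1 : ℝ) else 0) := by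
    apply mul_nonneg hV
    split_ifs <;> norm_num
  split_ifs with hT hBB hBB
  · linarith
  · by_cases hW0 : W a b n = 0
    · rw [hW0]; linarith
    · have hwt1 : Y819.MW.wt (Om a b c d T) (fun _ => 1) P n = 1 := by
        unfold Y819.MW.wt
        apply prod_eq_one
        intro p hp
        rw [if_neg, sub_zero]
        rintro ⟨i, hi, hdvd⟩
        have hpp := hP p hp
        rcases i with i | j
        · simp only [Sum.elim_inl] at hdvd
          have h2 := hB hBB i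
          push Not at h2
          have h3 : vonMangoldt (a i * n + b i) ≠ 0 := by
            intro h4
            apply hW0
            unfold W
            exact prod_eq_zero (mem_univ i) h4
          rw [vonMangoldt_ne_zero_iff, isPrimePow_nat_iff] at h3
          obtain ⟨q, e, hq, he, hqe⟩ := h3
          have he1 : e = 1 := by
            by_contra hne
            exact h2.2 ⟨q, e, hq, by omega, hqe.symm⟩
          rw [he1, pow_one] at hqe
          rw [← hqe] at hdvd h2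
          have h5 := (Nat.prime_dvd_prime_iff_eq hpp.1 hq).1 hdvd
          omega
        · simp only [Sum.elim_inr] at hdvd
          by_cases hpT : p ∈ T
          · apply hT p hpT
            exact hdvd.trans (dvd_prod_of_mem (fun j => c j * n + d j) (mem_univ j))
          · rw [if_neg hpT] at hi
            simp at hi
      rw [hwt1]
      linarith
  · linarith
  · linarith

theorem wbound {a b : Fin k → ℕ} {c d : Fin l → ℕ} (hG : Good a b c d) : ∃ C : ℝ, 0 < C ∧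
    ∀ (r : ℕ), 8 ≤ r → ∀ (b0 q N p0 : ℕ) (T : Finset ℕ), 1 ≤ q →
    (∀ p, p.Prime → p ∣ q → p = p0) → 2 ^ (5 * r) ≤ N ^ 8 → b0 + N * q ≤ 2 ^ (r + 2) →
    (∀ p ∈ T, p.Prime ∧ M0 a b c d < p ∧ p ≤ 2 ^ (r / 8)) →
    ∑ j ∈ range N, (if ∀ p ∈ T, ¬ p ∣ Q c d (b0 + j * q) then W a b (b0 + j * q) else 0) ≤
      C * N * Real.exp (-(l * ∑ p ∈ T, (1 : ℝ) / p)) := by
  obtain ⟨Cs, hCs, hsieve⟩ := Y819.MW.sieve ((k : ℝ) + l + 1) (by positivity) 1
  obtain ⟨Cl, hCl, hlo⟩ := mert_lo (M0 a b c d)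
  obtain ⟨Cu, hCu, hup⟩ := mert_up
  obtain ⟨Cp, hCp, hpow⟩ := pow_le_two (k + 1 + l)
  set M := M0 a b c d with hM
  set K : ℝ := ((4 + M : ℕ) : ℝ) with hK
  have hK0 : 0 < K := by rw [hK]; positivity
  set Cb : ℝ := 2 + 4 * 2 ^ (((3 + M : ℕ) : ℝ) / 2) * (5 + M) with hCb
  have hCb0 : 0 < Cb := by rw [hCb]; positivity
  refine ⟨K ^ k * Cs * Real.exp (k * Cl + l / 2) + K ^ k * (k * Cb) * Cp * Real.exp (l * Cu),
    by positivity, ?_⟩
  intro r hr b0 q N p0 T hq hq0 hN hbN hT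
  have hr1 : 1 ≤ r := by omega
  have hrr : (0 : ℝ) < r := by exact_mod_cast hr1
  set z := 2 ^ (r / 8) with hz
  set V : ℝ := (K * r) ^ k with hV
  have hV0 : 0 ≤ V := by positivity
  have hNlow := low_N hN
  have hN1 : z ≤ N := by
    have h1 : (2 ^ (r / 8)) ^ 8 ≤ N ^ 8 := by
      refine le_trans ?_ hN
      rw [← pow_mul]
      apply Nat.pow_le_pow_right (by norm_num)
      omega
    exact (Nat.pow_le_pow_iff_left (by norm_num)).1 h1
  have hz2 : 2 ≤ z := by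
    calc 2 = 2 ^ 1 := rfl
      _ ≤ 2 ^ (r / 8) := Nat.pow_le_pow_right (by norm_num) (by omega)
  have hN2 : 2 ≤ N := hz2.trans hN1
  set P : Finset ℕ := {p ∈ range (z + 1) | p.Prime ∧ M < p ∧ p ≠ p0} with hP
  have hPm : ∀ p ∈ P, p.Prime ∧ p ≤ z ∧ M < p ∧ p ≠ p0 := by
    intro p hp
    rw [hP, mem_filter, mem_range] at hp
    exact ⟨hp.2.1, by omega, hp.2.2.1, hp.2.2.2⟩
  set Bad : Finset ℕ := {j ∈ range N | ∃ i, a i * (b0 + j * q) + b i ≤ z ∨
    PPow (a i * (b0 + j * q) + b i)} with hBad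
  have hnle : ∀ j < N, b0 + j * q ≤ 2 ^ (r + 2) := by
    intro j hj
    have : j * q ≤ N * q := Nat.mul_le_mul_right q hj.le
    omega
  -- pointwise
  have hpt : ∀ j ∈ range N, (if ∀ p ∈ T, ¬ p ∣ Q c d (b0 + j * q) then W a b (b0 + j * q) else 0) ≤
      V * Y819.MW.wt (Om a b c d T) (fun _ => 1) P (b0 + j * q) + V * (if j ∈ Bad then 1 else 0) := by
    intro j hj
    have hj' := mem_range.1 hj
    have h := pointwise (c := c) (d := d) hV0 (z := z) (W_le hG hr1 (hnle j hj')) T P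
      (fun p hp => ⟨(hPm p hp).1, (hPm p hp).2.1⟩) (j ∈ Bad) (by
        intro hnb i hi
        apply hnb
        rw [hBad, mem_filter]
        exact ⟨hj, i, hi⟩)
    convert h
  refine (sum_le_sum hpt).trans ?_
  rw [sum_add_distrib, ← mul_sum, ← mul_sum]
  -- the sieve
  have hdens : ∀ p ∈ P, Y819.MW.dens 1 (Om a b c d T) p =
      ((k : ℝ) + if p ∈ T then (l : ℝ) else 0) / p :=
    fun p hp => Om_dens hG T (hPm p hp).1 (hPm p hp).2.2.1
  have hs := hsieve N b0 q (Om a b c d T) (fun _ => 1) P hN2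
    (fun p hp => ⟨(hPm p hp).1, (hPm p hp).2.1.trans hN1,
      fun hpq => (hPm p hp).2.2.2 (hq0 p (hPm p hp).1 hpq)⟩)
    (fun p _ n => Om_per a b c d T p n) (fun _ _ => ⟨zero_le_one, le_rfl⟩)
    (fun p hp => by
      rw [hdens p hp]
      apply div_le_div_of_nonneg_right _ (Nat.cast_nonneg p)
      split_ifs
      · linarith
      · have : (0 : ℝ) ≤ l := Nat.cast_nonneg l
        linarith)
  -- the sum over the primes
  have hss : k * (Real.log r - Cl) + l * ∑ p ∈ T, (1 : ℝ) / p - l / 2 ≤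
      Y819.MW.ss 1 (Om a b c d T) (fun _ => 1) P := by
    unfold Y819.MW.ss
    have e1 : ∑ p ∈ P, 1 * Y819.MW.dens 1 (Om a b c d T) p =
        k * ∑ p ∈ P, (1 : ℝ) / p + l * ∑ p ∈ P with p ∈ T, (1 : ℝ) / p := by
      have e0 : ∑ p ∈ P with p ∈ T, (1 : ℝ) / p = ∑ p ∈ P, if p ∈ T then (1 : ℝ) / p else 0 :=
        sum_filter _ _
      rw [e0, mul_sum, mul_sum, ← sum_add_distrib]
      apply sum_congr rfl
      intro p hp
      rw [hdens p hp]
      split_ifs <;> ring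
    rw [e1]
    have h1 := hlo r hr p0
    have h2 : ∑ p ∈ T, (1 : ℝ) / p ≤ ∑ p ∈ P with p ∈ T, (1 : ℝ) / p + 1 / 2 := by
      have hsub : T.erase p0 ⊆ P.filter (fun p => p ∈ T) := by
        intro p hp
        rw [mem_erase] at hp
        rw [mem_filter, hP, mem_filter, mem_range]
        have := hT p hp.2
        exact ⟨⟨by omega, this.1, this.2.1, hp.1⟩, hp.2⟩
      have h3 := sum_le_sum_of_subset_of_nonneg (f := fun p : ℕ => (1 : ℝ) / p) hsub
        (fun _ _ _ => by positivity)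
      have h4 : ∑ p ∈ T, (1 : ℝ) / p ≤ ∑ p ∈ T.erase p0, (1 : ℝ) / p + 1 / 2 := by
        by_cases hmem : p0 ∈ T
        · rw [← add_sum_erase _ _ hmem]
          have : (2 : ℝ) ≤ p0 := by exact_mod_cast (hT p0 hmem).1.two_le
          have : (1 : ℝ) / p0 ≤ 1 / 2 := one_div_le_one_div_of_le (by norm_num) this
          linarith
        · rw [erase_eq_of_notMem hmem]
          linarith
      linarith
    have hk0 : (0 : ℝ) ≤ k := Nat.cast_nonneg k
    have hl0 : (0 : ℝ) ≤ l := Nat.cast_nonneg l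
    have h3 := mul_le_mul_of_nonneg_left h1 hk0
    have h4 := mul_le_mul_of_nonneg_left h2 hl0
    linarith
  set E := Real.exp (-(l * ∑ p ∈ T, (1 : ℝ) / p)) with hE
  have hE0 : 0 < E := Real.exp_pos _
  have hNr : (0 : ℝ) < N := by exact_mod_cast (by omega : 0 < N)
  have hmain : V * ∑ j ∈ range N, Y819.MW.wt (Om a b c d T) (fun _ => 1) P (b0 + j * q) ≤
      K ^ k * Cs * Real.exp (k * Cl + l / 2) * N * E := by
    have h1 : Real.exp (- Y819.MW.ss 1 (Om a b c d T) (fun _ => 1) P) ≤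
        Real.exp (k * Cl + l / 2) * E * ((r : ℝ) ^ k)⁻¹ := by
      have e : ((r : ℝ) ^ k)⁻¹ = Real.exp (-(k * Real.log r)) := by
        rw [Real.exp_neg, mul_comm (k : ℝ), Real.exp_mul, Real.exp_log hrr, Real.rpow_natCast]
      rw [e, hE, ← Real.exp_add, ← Real.exp_add]
      apply Real.exp_le_exp.2
      linarith
    calc V * ∑ j ∈ range N, Y819.MW.wt (Om a b c d T) (fun _ => 1) P (b0 + j * q) ≤
        V * (Cs * N * Real.exp (- Y819.MW.ss 1 (Om a b c d T) (fun _ => 1) P)) :=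
          mul_le_mul_of_nonneg_left hs hV0
      _ ≤ V * (Cs * N * (Real.exp (k * Cl + l / 2) * E * ((r : ℝ) ^ k)⁻¹)) := by
          apply mul_le_mul_of_nonneg_left _ hV0
          exact mul_le_mul_of_nonneg_left h1 (by positivity)
      _ = _ := by
          rw [hV, mul_pow]
          field_simp
  have hbad : V * ∑ j ∈ range N, (if j ∈ Bad then (1 : ℝ) else 0) ≤
      K ^ k * (k * Cb) * Cp * Real.exp (l * Cu) * N * E := by
    have e1 : ∑ j ∈ range N, (if j ∈ Bad then (1 : ℝ) else 0) = (#Bad : ℝ) := by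
      rw [← sum_filter, sum_const, nsmul_eq_mul, mul_one]
      congr 2
      ext j
      rw [mem_filter, hBad, mem_filter]
      constructor
      · rintro ⟨h1, _, h2⟩
        exact ⟨h1, h2⟩
      · rintro ⟨h1, h2⟩
        exact ⟨h1, h1, h2⟩
    have h1 := bad_card (a := a) (b := b) hG.ha (b0 := b0) (N := N) (z := z)
      (Mx := 2 ^ (r + 3 + M)) hq (fun i j hj => form_le hG (hnle j hj) i)
    have h2 : (#Bad : ℝ) ≤ k * (Cb * (r * 2 ^ ((r : ℝ) / 2))) := by
      have h3 : ((#Bad : ℕ) : ℝ) ≤ ((k * ((z + 1) + (Nat.sqrt (2 ^ (r + 3 + M)) + 1) *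
        (Nat.log 2 (2 ^ (r + 3 + M)) + 1)) : ℕ) : ℝ) := by exact_mod_cast h1
      rw [Nat.cast_mul] at h3
      exact h3.trans (mul_le_mul_of_nonneg_left (bad_real M r hr) (Nat.cast_nonneg k))
    have hEl : Real.exp (-(l * Cu)) * ((r : ℝ) ^ l)⁻¹ ≤ E := by
      have e : ((r : ℝ) ^ l)⁻¹ = Real.exp (-(l * Real.log r)) := by
        rw [Real.exp_neg, mul_comm (l : ℝ), Real.exp_mul, Real.exp_log hrr, Real.rpow_natCast]
      rw [e, hE, ← Real.exp_add]
      apply Real.exp_le_exp.2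
      have h4 := hup r hr1 T (fun p hp => ⟨(hT p hp).1, (hT p hp).2.2.trans
        (Nat.pow_le_pow_right (by norm_num) (by omega))⟩)
      have hl0 : (0 : ℝ) ≤ l := Nat.cast_nonneg l
      have h5 := mul_le_mul_of_nonneg_left h4 hl0
      linarith
    have h5 := hpow r
    have h2r : (0 : ℝ) < 2 ^ ((r : ℝ) / 2) := Real.rpow_pos_of_pos (by norm_num) _
    rw [e1]
    calc V * (#Bad : ℝ) ≤ V * (k * (Cb * (r * 2 ^ ((r : ℝ) / 2)))) :=
          mul_le_mul_of_nonneg_left h2 hV0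
      _ = K ^ k * (k * Cb) * ((r : ℝ) ^ (k + 1 + l) * 2 ^ ((r : ℝ) / 2)) * ((r : ℝ) ^ l)⁻¹ := by
          rw [hV, mul_pow, pow_add, pow_add, pow_one]
          field_simp
      _ ≤ K ^ k * (k * Cb) * (Cp * N) * ((r : ℝ) ^ l)⁻¹ := by
          apply mul_le_mul_of_nonneg_right _ (by positivity)
          apply mul_le_mul_of_nonneg_left _ (by positivity)
          calc (r : ℝ) ^ (k + 1 + l) * 2 ^ ((r : ℝ) / 2) ≤
              Cp * 2 ^ ((r : ℝ) / 8) * 2 ^ ((r : ℝ) / 2) :=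
                mul_le_mul_of_nonneg_right h5 h2r.le
            _ = Cp * (2 ^ ((r : ℝ) / 2) * 2 ^ ((r : ℝ) / 8)) := by ring
            _ ≤ Cp * N := mul_le_mul_of_nonneg_left hNlow hCp.le
      _ = K ^ k * (k * Cb) * Cp * Real.exp (l * Cu) * N *
            (Real.exp (-(l * Cu)) * ((r : ℝ) ^ l)⁻¹) := by
          rw [Real.exp_neg]
          field_simp
      _ ≤ _ := mul_le_mul_of_nonneg_left hEl (by positivity)
  calc _ ≤ K ^ k * Cs * Real.exp (k * Cl + l / 2) * N * E +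
      K ^ k * (k * Cb) * Cp * Real.exp (l * Cu) * N * E := add_le_add hmain hbad
    _ = _ := by ring

end Pool.Agent.U322.NL
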