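import Pool.Agent.U322.NL.Est

/-! The sieve bound for products of von Mangoldt functions along arithmetic progressions. -/

set_option autoImplicit false

open Finset
open Classical

namespace Pool.Agent.U322.NL

open ArithmeticFunction

variable {k l : ℕ}

/-- the product of the values of the von Mangoldt function -/
noncomputable def W (a b : Fin k → ℕ) (n : ℕ) : ℝ := ∏ i, vonMangoldt (a i * n + b i)

/-- the product of the forms -/
def Q (c d : Fin l → ℕ) (n : ℕ) : ℕ := ∏ j, (c j * n + d j)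

/-- positive leading coefficients, no two forms proportional -/
structure Good (a b : Fin k → ℕ) (c d : Fin l → ℕ) : Prop where
  ha : ∀ i, 1 ≤ a i
  hc : ∀ j, 1 ≤ c j
  hab : ∀ i i', i ≠ i' → a i * b i' ≠ a i' * b i
  hcd : ∀ j j', j ≠ j' → c j * d j' ≠ c j' * d j
  hm : ∀ i j, a i * d j ≠ c j * b i

def M0 (a b : Fin k → ℕ) (c d : Fin l → ℕ) : ℕ := bd (Sum.elim a c) (Sum.elim b d)

theorem W_nonneg (a b : Fin k → ℕ) (n : ℕ) : 0 ≤ W a b n :=
  prod_nonneg fun _ _ => vonMangoldt_nonneg

theorem Good.sum_a {a b : Fin k → ℕ} {c d : Fin l → ℕ} (h : Good a b c d) (i : Fin k ⊕ Fin l) :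
    1 ≤ Sum.elim a c i := by
  rcases i with i | j
  · exact h.ha i
  · exact h.hc j

theorem Good.sum_d {a b : Fin k → ℕ} {c d : Fin l → ℕ} (h : Good a b c d) (i j : Fin k ⊕ Fin l)
    (hij : i ≠ j) : Sum.elim a c i * Sum.elim b d j ≠ Sum.elim a c j * Sum.elim b d i := by
  rcases i with i | i <;> rcases j with j | j
  · exact h.hab i j fun e => hij (by rw [e])
  · exact h.hm i j
  · exact (h.hm j i).symm
  · exact h.hcd i j fun e => hij (by rw [e])

theorem a_le_M0 (a b : Fin k → ℕ) (c d : Fin l → ℕ) (i : Fin k) : a i ≤ M0 a b c d :=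
  a_le_bd (Sum.elim a c) (Sum.elim b d) (Sum.inl i)

theorem c_le_M0 (a b : Fin k → ℕ) (c d : Fin l → ℕ) (j : Fin l) : c j ≤ M0 a b c d :=
  a_le_bd (Sum.elim a c) (Sum.elim b d) (Sum.inr j)

theorem b_le_M0 {a b : Fin k → ℕ} {c d : Fin l → ℕ} (h : Good a b c d) (i : Fin k) :
    b i ≤ M0 a b c d := by
  have h1 := ab_le_bd (Sum.elim a c) (Sum.elim b d) (Sum.inl i) (Sum.inl i)
  have h2 := h.ha i
  simp only [Sum.elim_inl] at h1
  unfold M0
  nlinarith

theorem bad_card {a b : Fin k → ℕ} (ha : ∀ i, 1 ≤ a i) {b0 q N z Mx : ℕ} (hq : 1 ≤ q)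
    (hMx : ∀ i, ∀ j < N, a i * (b0 + j * q) + b i ≤ Mx) :
    #{j ∈ range N | ∃ i, a i * (b0 + j * q) + b i ≤ z ∨ PPow (a i * (b0 + j * q) + b i)} ≤
      k * ((z + 1) + (Nat.sqrt Mx + 1) * (Nat.log 2 Mx + 1)) := by
  have hinj : ∀ i, Function.Injective fun j => a i * (b0 + j * q) + b i := by
    intro i j j' h
    beta_reduce at h
    have h1 : a i * (b0 + j * q) = a i * (b0 + j' * q) := by omega
    have h2 := Nat.eq_of_mul_eq_mul_left (by have := ha i; omega) h1
    have h3 : j * q = j' * q := by omega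
    exact Nat.eq_of_mul_eq_mul_right (by omega) h3
  have hsub : {j ∈ range N | ∃ i, a i * (b0 + j * q) + b i ≤ z ∨ PPow (a i * (b0 + j * q) + b i)} ⊆
      univ.biUnion fun i : Fin k => {j ∈ range N | a i * (b0 + j * q) + b i ≤ z} ∪
        {j ∈ range N | PPow (a i * (b0 + j * q) + b i)} := by
    intro j hj
    rw [mem_filter] at hj
    obtain ⟨h1, i, h2⟩ := hj
    rw [mem_biUnion]
    refine ⟨i, mem_univ i, ?_⟩
    rw [mem_union, mem_filter, mem_filter]
    rcases h2 with h2 | h2
    · left; exact ⟨h1, h2⟩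
    · right; exact ⟨h1, h2⟩
  refine (card_le_card hsub).trans (card_biUnion_le.trans ?_)
  have h3 : ∀ i ∈ (univ : Finset (Fin k)), #({j ∈ range N | a i * (b0 + j * q) + b i ≤ z} ∪
        {j ∈ range N | PPow (a i * (b0 + j * q) + b i)}) ≤
        (z + 1) + (Nat.sqrt Mx + 1) * (Nat.log 2 Mx + 1) := by
    intro i _
    refine (card_union_le _ _).trans (add_le_add ?_ ?_)
    · rw [← card_range (z + 1)]
      apply card_le_card_of_injOn (fun j => a i * (b0 + j * q) + b i)
      · intro j hj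
        rw [mem_coe, mem_filter] at hj
        rw [mem_coe, mem_range]
        have := hj.2
        change a i * (b0 + j * q) + b i < _
        omega
      · exact (hinj i).injOn
    · refine le_trans ?_ (ppow_card Mx)
      apply card_le_card_of_injOn (fun j => a i * (b0 + j * q) + b i)
      · intro j hj
        rw [mem_coe, mem_filter, mem_range] at hj
        rw [mem_coe, mem_filter, mem_range]
        have := hMx i j hj.1
        refine ⟨?_, hj.2⟩
        change a i * (b0 + j * q) + b i < _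
        omega
      · exact (hinj i).injOn
  refine (sum_le_sum h3).trans ?_
  rw [sum_const, card_univ, Fintype.card_fin, smul_eq_mul]

/-- the forbidden classes -/
def Om (a b : Fin k → ℕ) (c d : Fin l → ℕ) (T : Finset ℕ) (p : ℕ) : Set ℕ :=
  {n | ∃ i ∈ (if p ∈ T then univ else univ.map Function.Embedding.inl : Finset (Fin k ⊕ Fin l)),
    p ∣ Sum.elim a c i * n + Sum.elim b d i}

theorem Om_per (a b : Fin k → ℕ) (c d : Fin l → ℕ) (T : Finset ℕ) (p : ℕ) (n : ℕ) :
    n + p ^ 1 ∈ Om a b c d T p ↔ n ∈ Om a b c d T p := by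
  unfold Om
  simp only [Set.mem_ofPred_eq]
  apply exists_congr
  intro i
  apply and_congr_right
  intro _
  have e : Sum.elim a c i * (n + p ^ 1) + Sum.elim b d i =
    Sum.elim a c i * n + Sum.elim b d i + p * Sum.elim a c i := by ring
  rw [e]
  exact (Nat.dvd_add_left (Dvd.intro _ rfl))

theorem Om_dens {a b : Fin k → ℕ} {c d : Fin l → ℕ} (h : Good a b c d) (T : Finset ℕ) {p : ℕ}
    (hp : p.Prime) (hM : M0 a b c d < p) :
    Y819.MW.dens 1 (Om a b c d T) p = ((k : ℝ) + if p ∈ T then (l : ℝ) else 0) / p := by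
  unfold Y819.MW.dens Om
  simp only [Set.mem_ofPred_eq, pow_one]
  rw [roots_card _ _ _ hp (fun i _ => not_dvd_a h.sum_a hM i)
    (fun i _ j _ hij => not_dvd_det hM (h.sum_d i j hij))]
  split_ifs with hpT
  · rw [card_univ, Fintype.card_sum, Fintype.card_fin, Fintype.card_fin]
    push_cast
    rfl
  · rw [card_map, card_univ, Fintype.card_fin]
    simp

end Pool.Agent.U322.NL
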